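import Pool.Agent.H.MP_ac3185_nt.R.Defs
import Pool.Agent.H.MP_ac3185_nt.V.DivC

/-! The valuation rings of the algebraic closure of a number field. -/

set_option autoImplicit false

open CategoryTheory AlgebraicGeometry NumberField IsDedekindDomain Filter
open scoped MonObj

namespace Pool.Agent.H.MP_ac3185_nt

universe u

variable {K : Type u} [Field K] [NumberField K]

theorem gv_or (𝔓 : Ideal (𝓞 (AlgebraicClosure K))) (v : HeightOneSpectrum (𝓞 K))
    (h : Above 𝔓 v) (a : AlgebraicClosure K) :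
    (∃ x s : 𝓞 (AlgebraicClosure K), s ∉ 𝔓 ∧ a * (s : AlgebraicClosure K) = x) ∨
      ∃ x s : 𝓞 (AlgebraicClosure K), s ∉ 𝔓 ∧ a⁻¹ * (s : AlgebraicClosure K) = x := by
  obtain ⟨hp, hv⟩ := h
  let E : IntermediateField K (AlgebraicClosure K) := IntermediateField.adjoin K {a}
  have hfd : FiniteDimensional K E :=
    IntermediateField.adjoin.finiteDimensional (Algebra.IsIntegral.isIntegral a)
  have hE : NumberField E := NumberField.of_module_finite K E
  have haE : a ∈ E := IntermediateField.mem_adjoin_simple_self K a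
  let 𝔭 : Ideal (𝓞 E) := 𝔓.comap (algebraMap (𝓞 E) (𝓞 (AlgebraicClosure K)))
  have h𝔭 : 𝔭.IsPrime := Ideal.comap_isPrime _ _
  have h0 : 𝔭 ≠ ⊥ := by
    intro h0
    obtain ⟨r, hr, hr0⟩ := Submodule.exists_mem_ne_zero_of_ne_bot v.ne_bot
    rw [← hv, Ideal.mem_comap] at hr
    have h1 : algebraMap (𝓞 K) (𝓞 E) r ∈ 𝔭 := by
      rw [Ideal.mem_comap]
      have : algebraMap (𝓞 E) (𝓞 (AlgebraicClosure K)) (algebraMap (𝓞 K) (𝓞 E) r) =
          algebraMap (𝓞 K) (𝓞 (AlgebraicClosure K)) r := RingOfIntegers.ext rfl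
      rw [this]
      exact hr
    rw [h0, Ideal.mem_bot] at h1
    exact hr0 ((map_eq_zero_iff _ (FaithfulSMul.algebraMap_injective (𝓞 K) (𝓞 E))).1 h1)
  let w : HeightOneSpectrum (𝓞 E) := ⟨𝔭, h𝔭, h0⟩
  obtain ⟨n, ⟨d, hd⟩, hnd⟩ := w.exists_primeCompl_mul_eq_or_mul_eq (K := E) ⟨a, haE⟩
  have hd' : algebraMap (𝓞 E) (𝓞 (AlgebraicClosure K)) d ∉ 𝔓 := hd
  rcases hnd with h1 | h1
  · left
    exact ⟨algebraMap (𝓞 E) (𝓞 (AlgebraicClosure K)) n, algebraMap (𝓞 E) (𝓞 (AlgebraicClosure K)) d,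
      hd', congrArg (fun x : E => (x : AlgebraicClosure K)) h1⟩
  · right
    refine ⟨algebraMap (𝓞 E) (𝓞 (AlgebraicClosure K)) n,
      algebraMap (𝓞 E) (𝓞 (AlgebraicClosure K)) d, hd', ?_⟩
    have h2 : a * ((algebraMap (𝓞 E) (𝓞 (AlgebraicClosure K)) n : 𝓞 (AlgebraicClosure K)) :
        AlgebraicClosure K) = ((algebraMap (𝓞 E) (𝓞 (AlgebraicClosure K)) d :
          𝓞 (AlgebraicClosure K)) : AlgebraicClosure K) :=
      congrArg (fun x : E => (x : AlgebraicClosure K)) h1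
    have ha : a ≠ 0 := by
      rintro rfl
      rw [zero_mul] at h2
      apply hd'
      have h3 : algebraMap (𝓞 E) (𝓞 (AlgebraicClosure K)) d = 0 := RingOfIntegers.ext h2.symm
      rw [h3]
      exact 𝔓.zero_mem
    rw [← h2, ← mul_assoc, inv_mul_cancel₀ ha, one_mul]

/-- The local ring of the ring of algebraic integers at `𝔓`. -/
def valAt (𝔓 : Ideal (𝓞 (AlgebraicClosure K))) (v : HeightOneSpectrum (𝓞 K)) (h : Above 𝔓 v) :
    ValuationSubring (AlgebraicClosure K) where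
  carrier := {a | ∃ x s : 𝓞 (AlgebraicClosure K), s ∉ 𝔓 ∧ a * (s : AlgebraicClosure K) = x}
  mul_mem' := by
    rintro a b ⟨x, s, hs, e⟩ ⟨y, t, ht, e'⟩
    refine ⟨x * y, s * t, fun hst => ?_, ?_⟩
    · rcases h.1.mem_or_mem hst with h1 | h1
      · exact hs h1
      · exact ht h1
    · show a * b * ((s : AlgebraicClosure K) * t) = (x : AlgebraicClosure K) * y
      rw [← e, ← e']
      ring
  one_mem' := ⟨1, 1, fun h1 => h.1.ne_top ((Ideal.eq_top_iff_one _).2 h1), by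
    show (1 : AlgebraicClosure K) * 1 = 1
    rw [one_mul]⟩
  add_mem' := by
    rintro a b ⟨x, s, hs, e⟩ ⟨y, t, ht, e'⟩
    refine ⟨x * t + y * s, s * t, fun hst => ?_, ?_⟩
    · rcases h.1.mem_or_mem hst with h1 | h1
      · exact hs h1
      · exact ht h1
    · show (a + b) * ((s : AlgebraicClosure K) * t) =
        (x : AlgebraicClosure K) * t + (y : AlgebraicClosure K) * s
      rw [← e, ← e']
      ring
  zero_mem' := ⟨0, 1, fun h1 => h.1.ne_top ((Ideal.eq_top_iff_one _).2 h1), by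
    show (0 : AlgebraicClosure K) * 1 = 0
    rw [zero_mul]⟩
  neg_mem' := by
    rintro a ⟨x, s, hs, e⟩
    refine ⟨-x, s, hs, ?_⟩
    show -a * (s : AlgebraicClosure K) = -(x : AlgebraicClosure K)
    rw [← e]
    ring
  mem_or_inv_mem' := gv_or 𝔓 v h

variable {𝔓 : Ideal (𝓞 (AlgebraicClosure K))} {v : HeightOneSpectrum (𝓞 K)} (h : Above 𝔓 v)

theorem valAt_le (a : AlgebraicClosure K) : (valAt 𝔓 v h).valuation a ≤ 1 ↔
    ∃ x s : 𝓞 (AlgebraicClosure K), s ∉ 𝔓 ∧ a * (s : AlgebraicClosure K) = x :=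
  (valAt 𝔓 v h).valuation_le_one_iff a

theorem valAt_lt (a : AlgebraicClosure K) (x s : 𝓞 (AlgebraicClosure K)) (hs : s ∉ 𝔓) (hx : x ∈ 𝔓)
    (e : a * (s : AlgebraicClosure K) = x) : (valAt 𝔓 v h).valuation a < 1 := by
  have h1 : (valAt 𝔓 v h).valuation a ≤ 1 := (valAt_le h a).2 ⟨x, s, hs, e⟩
  refine lt_of_le_of_ne h1 fun h2 => ?_
  have ha : a ≠ 0 := by
    rintro rfl
    rw [map_zero] at h2
    exact zero_ne_one h2
  have h3 : (valAt 𝔓 v h).valuation a⁻¹ ≤ 1 := by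
    rw [map_inv₀, h2, inv_one]
  obtain ⟨y, t, ht, e'⟩ := (valAt_le h a⁻¹).1 h3
  have h4 : s * t = x * y := by
    apply RingOfIntegers.ext
    show (s : AlgebraicClosure K) * t = (x : AlgebraicClosure K) * y
    rw [← e, ← e']
    field_simp
  have h5 : s * t ∈ 𝔓 := by
    rw [h4]
    exact 𝔓.mul_mem_right _ hx
  rcases h.1.mem_or_mem h5 with h6 | h6
  · exact hs h6
  · exact ht h6

theorem valAt_nat (m : ℕ) (hm : (m : 𝓞 (AlgebraicClosure K)) ∉ 𝔓) :
    (valAt 𝔓 v h).valuation (m : AlgebraicClosure K) = 1 := by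
  have h0 : (m : AlgebraicClosure K) ≠ 0 := by
    intro h0
    apply hm
    have : m = 0 := by exact_mod_cast h0
    rw [this, Nat.cast_zero]
    exact 𝔓.zero_mem
  have h1 : (valAt 𝔓 v h).valuation (m : AlgebraicClosure K) ≤ 1 := (valAt_le h _).2
    ⟨(m : 𝓞 (AlgebraicClosure K)), 1, fun h1 => h.1.ne_top ((Ideal.eq_top_iff_one _).2 h1), by
      show (m : AlgebraicClosure K) * 1 = (((m : 𝓞 (AlgebraicClosure K))) : AlgebraicClosure K)
      rw [mul_one]
      rfl⟩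
  have h2 : (valAt 𝔓 v h).valuation (m : AlgebraicClosure K)⁻¹ ≤ 1 := (valAt_le h _).2
    ⟨1, (m : 𝓞 (AlgebraicClosure K)), hm, by
      show (m : AlgebraicClosure K)⁻¹ * (((m : 𝓞 (AlgebraicClosure K))) : AlgebraicClosure K) = 1
      exact inv_mul_cancel₀ h0⟩
  refine le_antisymm h1 ?_
  rw [map_inv₀] at h2
  have h3 : 0 < (valAt 𝔓 v h).valuation (m : AlgebraicClosure K) :=
    zero_lt_iff.2 ((Valuation.ne_zero_iff _).2 h0)
  exact (inv_le_one₀ h3).1 h2

/-- Inertia acts trivially on the residue field. -/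
theorem valAt_inertia (s : AlgebraicClosure K ≃ₐ[K] AlgebraicClosure K) (hs : s ∈ inertia K 𝔓)
    (a : AlgebraicClosure K) (ha : (valAt 𝔓 v h).valuation a ≤ 1) :
    (valAt 𝔓 v h).valuation (s a - a) < 1 := by
  obtain ⟨x, t, ht, e⟩ := (valAt_le h a).1 ha
  have ht' : galInt s t ∉ 𝔓 := fun h1 => ht (by
    have h2 := 𝔓.sub_mem h1 (hs t)
    rwa [sub_sub_cancel] at h2)
  have e' : s a * ((galInt s t : 𝓞 (AlgebraicClosure K)) : AlgebraicClosure K) =
      ((galInt s x : 𝓞 (AlgebraicClosure K)) : AlgebraicClosure K) := by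
    have h1 : s (a * (t : AlgebraicClosure K)) = s (x : AlgebraicClosure K) := congrArg s e
    rw [map_mul] at h1
    exact h1
  refine valAt_lt h _ (galInt s x * t - x * galInt s t) (galInt s t * t) (fun h1 => ?_) ?_ ?_
  · rcases h.1.mem_or_mem h1 with h2 | h2
    · exact ht' h2
    · exact ht h2
  · have h1 : galInt s x * t - x * galInt s t = (galInt s x - x) * t - x * (galInt s t - t) := by
      ring
    rw [h1]
    exact 𝔓.sub_mem (𝔓.mul_mem_right _ (hs x)) (𝔓.mul_mem_left _ (hs t))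
  · show (s a - a) * (((galInt s t : 𝓞 (AlgebraicClosure K)) : AlgebraicClosure K) * t) =
      ((galInt s x : 𝓞 (AlgebraicClosure K)) : AlgebraicClosure K) * t -
        (x : AlgebraicClosure K) * ((galInt s t : 𝓞 (AlgebraicClosure K)) : AlgebraicClosure K)
    rw [← e, ← e']
    ring

/-- The elements of `K` are integral at almost all places. -/
theorem gv_almost (𝔓 : ℕ → Ideal (𝓞 (AlgebraicClosure K))) (v : ℕ → HeightOneSpectrum (𝓞 K))
    (hv : Function.Injective v) (h : ∀ n, Above (𝔓 n) (v n)) (c : K) :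
    ∀ᶠ n in (vdU : Filter ℕ),
      (valAt (𝔓 n) (v n) (h n)).valuation (algebraMap K (AlgebraicClosure K) c) ≤ 1 := by
  obtain ⟨p, q, hq, rfl⟩ := IsFractionRing.div_surjective (A := 𝓞 K) c
  have hq0 : q ≠ 0 := nonZeroDivisors.ne_zero hq
  have h1 : {w : HeightOneSpectrum (𝓞 K) | w.asIdeal ∣ Ideal.span {q}}.Finite :=
    Ideal.finite_factors (by
      rw [Ne, Ideal.zero_eq_bot, Ideal.span_singleton_eq_bot]
      exact hq0)
  have h2 : {n | (v n).asIdeal ∣ Ideal.span {q}}.Finite :=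
    Set.Finite.preimage (f := v) hv.injOn h1
  have h3 : ∀ᶠ n in (vdU : Filter ℕ), ¬ (v n).asIdeal ∣ Ideal.span {q} :=
    hyperfilter_le_cofinite h2.compl_mem_cofinite
  filter_upwards [h3] with n hn
  have h4 : q ∉ (v n).asIdeal := fun h4 => hn (Ideal.dvd_span_singleton.2 h4)
  refine (valAt_le (h n) _).2 ⟨algebraMap (𝓞 K) (𝓞 (AlgebraicClosure K)) p,
    algebraMap (𝓞 K) (𝓞 (AlgebraicClosure K)) q, fun h5 => h4 ?_, ?_⟩
  · rw [← (h n).2]
    exact h5
  · have e1 : ∀ r : 𝓞 K, ((algebraMap (𝓞 K) (𝓞 (AlgebraicClosure K)) r :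
        𝓞 (AlgebraicClosure K)) : AlgebraicClosure K) =
        algebraMap K (AlgebraicClosure K) (algebraMap (𝓞 K) K r) := fun r => rfl
    rw [e1, e1, ← map_mul]
    congr 1
    have h6 : algebraMap (𝓞 K) K q ≠ 0 := by
      intro h6
      exact hq0 ((map_eq_zero_iff _ (FaithfulSMul.algebraMap_injective (𝓞 K) K)).1 h6)
    exact div_mul_cancel₀ _ h6

end Pool.Agent.H.MP_ac3185_nt
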