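import Pool.Agent.H.MP_ac3185_nt.W.Near
import Pool.Agent.H.MP_ac3185_nt.W.Val
import Pool.Agent.H.MP_ac3185_nt.V.DivH

/-! Inertia acts trivially on the torsion of order prime to the residue characteristic, for almost all
places (good reduction at almost all places). -/

set_option autoImplicit false

open CategoryTheory AlgebraicGeometry NumberField IsDedekindDomain Filter
open scoped MonObj

namespace Pool.Agent.H.MP_ac3185_nt

universe u

variable {K : Type u} [Field K] [NumberField K]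

section bad

variable {A : Over (Spec (.of K))} [GrpObj A] {B : Type u} [CommRing B] [Algebra K B]
  (j : spR K B ⟶ A) [IsOpenImmersion j.left] (ε : B →ₐ[K] K)
  (hε : (1 : spR K K ⟶ A) = spMap ε ≫ j) (G : Finset B) (hG : Algebra.adjoin K (G : Set B) = ⊤)
  (hG0 : ∀ g ∈ G, ε g = 0)

include hε hG0 in
theorem gd_bad_aut [IsAbVar A] : {v : HeightOneSpectrum (𝓞 K) | ∃ 𝔓, ∃ h : Above 𝔓 v,
    ∃ s ∈ inertia K 𝔓, ∃ x : spR K (AlgebraicClosure K) ⟶ A,
      ¬ NearV (valAt 𝔓 v h) j G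
        ((spMap ((s : AlgebraicClosure K ≃ₐ[K] AlgebraicClosure K) :
          AlgebraicClosure K →ₐ[K] AlgebraicClosure K) ≫ x) / x)}.Finite := by
  by_contra hinf
  have hinf' : Set.Infinite _ := hinf
  let e := hinf'.natEmbedding
  choose 𝔓 h s hs x hx using fun n => (e n).2
  obtain ⟨D⟩ := exists_gdRing K (AlgebraicClosure K) (fun n => valAt (𝔓 n) (e n).1 (h n))
    (gv_almost 𝔓 (fun n => (e n).1) (fun a b hab => e.injective (Subtype.ext hab)) h)
  obtain ⟨n, hn⟩ := (gd_aut D j ε hε G hG0 s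
    (fun n a ha => valAt_inertia (h n) (s n) (hs n) a ha) x).exists
  exact hx n hn

include hε hG hG0 in
theorem gd_bad_sum : {v : HeightOneSpectrum (𝓞 K) | ∃ 𝔓, ∃ h : Above 𝔓 v,
    ¬ SumV (valAt 𝔓 v h) j G}.Finite := by
  by_contra hinf
  have hinf' : Set.Infinite _ := hinf
  let e := hinf'.natEmbedding
  choose 𝔓 h hbad using fun n => (e n).2
  unfold SumV at hbad
  push Not at hbad
  choose c φ ψ hc hφ hψ hθ using hbad
  obtain ⟨D⟩ := exists_gdRing K (AlgebraicClosure K) (fun n => valAt (𝔓 n) (e n).1 (h n))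
    (gv_almost 𝔓 (fun n => (e n).1) (fun a b hab => e.injective (Subtype.ext hab)) h)
  obtain ⟨n, θ, h1, h2⟩ := (gd_sumV D j ε hε G hG hG0 c φ ψ hc hφ hψ).exists
  obtain ⟨g, hg, h3⟩ := hθ n θ h1
  exact absurd (h2 g hg) (not_le.2 h3)

end bad

/-- For almost all places `v` the inertia groups above `v` act trivially on the points of order prime
to the residue characteristic. -/
theorem gd_finite (A : Over (Spec (.of K))) [GrpObj A] [IsAbVar A] :
    {v : HeightOneSpectrum (𝓞 K) | ∃ 𝔓, Above 𝔓 v ∧ ∃ s ∈ inertia K 𝔓, ∃ m : ℕ,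
      (m : 𝓞 (AlgebraicClosure K)) ∉ 𝔓 ∧ ∃ x : Pts A (AlgebraicClosure K), m • x = 0 ∧
        galHom A s x ≠ x}.Finite := by
  obtain ⟨B, _, _, j, hj, ε, G, hε, hG, hG0⟩ := vd_origin A
  refine ((gd_bad_aut j ε hε G hG0).union (gd_bad_sum j ε hε G hG hG0)).subset ?_
  rintro v ⟨𝔓, h, s, hs, m, hm, x, hx, hne⟩
  by_contra hv
  rw [Set.mem_union, not_or] at hv
  obtain ⟨hv1, hv2⟩ := hv
  let X : spR K (AlgebraicClosure K) ⟶ A :=
    (Additive.toMul x : specOver K (AlgebraicClosure K) ⟶ A)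
  let S : spR K (AlgebraicClosure K) ⟶ spR K (AlgebraicClosure K) :=
    spMap ((s : AlgebraicClosure K ≃ₐ[K] AlgebraicClosure K) :
      AlgebraicClosure K →ₐ[K] AlgebraicClosure K)
  have hX : X ^ m = 1 := by
    have h1 : Additive.toMul (m • x) = Additive.toMul (0 : Pts A (AlgebraicClosure K)) :=
      congrArg Additive.toMul hx
    exact h1
  have hnear : NearV (valAt 𝔓 v h) j G ((S ≫ X) / X) := by
    by_contra hn
    exact hv1 ⟨𝔓, h, s, hs, X, hn⟩
  have hsum : SumV (valAt 𝔓 v h) j G := by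
    by_contra hn
    exact hv2 ⟨𝔓, h, hn⟩
  have h1 : ((S ≫ X) / X) ^ m = 1 := by
    rw [div_pow, ← MonObj.comp_pow, hX, MonObj.comp_one, div_one]
  have h2 := hnear.torsion (valAt 𝔓 v h) j ε hε G hG hG0 hsum _ m (valAt_nat h m hm) h1
  rw [div_eq_one] at h2
  apply hne
  exact congrArg Additive.ofMul h2

/-- The finite set of places in terms of a number `N`. -/
theorem gd_number (S : Set (HeightOneSpectrum (𝓞 K))) (hS : S.Finite) :
    ∃ N : ℕ, N ≠ 0 ∧ ∀ v : HeightOneSpectrum (𝓞 K), (N : 𝓞 K) ∉ v.asIdeal → v ∉ S := by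
  classical
  refine ⟨∏ v ∈ hS.toFinset, Ideal.absNorm v.asIdeal, ?_, ?_⟩
  · refine Finset.prod_ne_zero_iff.2 fun v _ => ?_
    rw [Ne, Ideal.absNorm_eq_zero_iff]
    exact v.ne_bot
  · intro v hv hvS
    apply hv
    rw [Nat.cast_prod]
    exact Ideal.mem_of_dvd _ (Finset.dvd_prod_of_mem
      (fun v : HeightOneSpectrum (𝓞 K) => ((Ideal.absNorm v.asIdeal : ℕ) : 𝓞 K))
      (hS.mem_toFinset.2 hvS)) (Ideal.absNorm_mem _)

/-- The inertia groups act trivially on the Tate modules at the places which do not divide a certain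
number `N`. -/
theorem gd_tate (A : Over (Spec (.of K))) [GrpObj A] [IsAbVar A] :
    ∃ N : ℕ, N ≠ 0 ∧ ∀ v : HeightOneSpectrum (𝓞 K), (N : 𝓞 K) ∉ v.asIdeal → ∀ 𝔓, Above 𝔓 v →
      ∀ (ℓ : ℕ) [Fact ℓ.Prime], (ℓ : 𝓞 (AlgebraicClosure K)) ∉ 𝔓 →
        ∀ g ∈ inertia K 𝔓, galV A ℓ g = LinearMap.id := by
  obtain ⟨N, hN, hv⟩ := gd_number _ (gd_finite A)
  refine ⟨N, hN, fun v hNv 𝔓 h𝔓 ℓ _ hℓ g hg => ?_⟩
  have h1 : ∀ (n : ℕ) (x : Pts A (AlgebraicClosure K)), ℓ ^ n • x = 0 → galHom A g x = x := by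
    intro n x hx
    by_contra hne
    refine hv v hNv ⟨𝔓, h𝔓, g, hg, ℓ ^ n, ?_, x, hx, hne⟩
    rw [Nat.cast_pow]
    exact fun h2 => hℓ (h𝔓.1.mem_of_pow_mem n h2)
  have h2 : Tate.map (ℓ := ℓ) (galHom A g) = LinearMap.id := by
    refine LinearMap.ext fun x => ?_
    exact Tate.ext fun n => h1 n _ (Tate.torsion x n)
  refine LinearMap.ext fun x => ?_
  show rawMap (ℓ := ℓ) (galHom A g) x = x
  unfold rawMap
  rw [h2, LinearMap.baseChange_id]
  rfl

end Pool.Agent.H.MP_ac3185_nt
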