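import Pool.Agent.H.MP_ac3185_nt.Tate

/-! The Tate module is finitely generated, if the `ℓ`-torsion is finite. -/

set_option autoImplicit false

open IsLocalRing

namespace Pool.Agent.H.MP_ac3185_nt

variable {ℓ : ℕ} [Fact ℓ.Prime]

theorem tf_mem {N : Type*} [AddCommGroup N] [Module ℤ_[ℓ] N] (n : ℕ) (x : N) :
    x ∈ ((maximalIdeal ℤ_[ℓ]) ^ n • ⊤ : Submodule ℤ_[ℓ] N) ↔ ∃ y : N, x = (ℓ : ℤ_[ℓ]) ^ n • y := by
  rw [PadicInt.maximalIdeal_eq_span_p, Ideal.span_singleton_pow,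
    Submodule.ideal_span_singleton_smul, Submodule.mem_smul_pointwise_iff_exists]
  constructor
  · rintro ⟨y, -, h⟩
    exact ⟨y, h.symm⟩
  · rintro ⟨y, h⟩
    exact ⟨y, trivial, h.symm⟩

theorem tf_prec (ι : Type*) : IsPrecomplete (maximalIdeal ℤ_[ℓ]) (ι → ℤ_[ℓ]) := by
  refine ⟨fun f hf => ?_⟩
  have h1 : ∀ i, ∃ L : ℤ_[ℓ], ∀ n,
      f n i ≡ L [SMOD ((maximalIdeal ℤ_[ℓ]) ^ n • ⊤ : Submodule ℤ_[ℓ] ℤ_[ℓ])] := by
    intro i
    refine IsPrecomplete.prec' (fun n => f n i) fun {m n} hmn => ?_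
    have h2 := hf hmn
    rw [SModEq.sub_mem, tf_mem] at h2 ⊢
    obtain ⟨y, hy⟩ := h2
    exact ⟨y i, congrFun hy i⟩
  choose L hL using h1
  refine ⟨L, fun n => ?_⟩
  have h2 : ∀ i, ∃ y, f n i - L i = (ℓ : ℤ_[ℓ]) ^ n • y := by
    intro i
    have h3 := hL i n
    rwa [SModEq.sub_mem, tf_mem] at h3
  choose y hy using h2
  rw [SModEq.sub_mem, tf_mem]
  exact ⟨y, funext hy⟩

variable {M : Type*} [AddCommGroup M]

theorem tf_smul (x : Tate ℓ M) (k n : ℕ) : ((ℓ : ℤ_[ℓ]) ^ k • x).1 n = ℓ ^ k • x.1 n := by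
  refine Tate.smul_val_of _ x n (ℓ ^ k) ?_
  rw [Nat.cast_pow, sub_self]
  exact Ideal.zero_mem _

theorem tf_haus : IsHausdorff (maximalIdeal ℤ_[ℓ]) (Tate ℓ M) := by
  refine ⟨fun x hx => Tate.ext fun n => ?_⟩
  have h1 := hx n
  rw [SModEq.zero, tf_mem] at h1
  obtain ⟨y, rfl⟩ := h1
  rw [tf_smul, Tate.torsion, Tate.zero_val]

theorem tf_div (x : Tate ℓ M) (h : x.1 1 = 0) : ∃ y : Tate ℓ M, x = (ℓ : ℤ_[ℓ]) ^ 1 • y := by
  let y : Tate ℓ M := ⟨fun n => x.1 (n + 1), h, fun n => x.2.2 (n + 1)⟩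
  refine ⟨y, Tate.ext fun n => ?_⟩
  rw [tf_smul, pow_one]
  exact (x.2.2 n).symm

/-- The Tate module is finitely generated, if the group of the elements killed by `ℓ` is finite. -/
theorem tf_finite (hfin : {m : M | ℓ • m = 0}.Finite) : Module.Finite ℤ_[ℓ] (Tate ℓ M) := by
  classical
  have _ : Fintype {m : M | ℓ • m = 0} := hfin.fintype
  have hp := tf_prec (ℓ := ℓ) {m : M | ℓ • m = 0}
  have hh := tf_haus (ℓ := ℓ) (M := M)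
  let t : {m : M | ℓ • m = 0} → Tate ℓ M := fun s =>
    if h : ∃ x : Tate ℓ M, x.1 1 = s then h.choose else 0
  let f : ({m : M | ℓ • m = 0} → ℤ_[ℓ]) →ₗ[ℤ_[ℓ]] Tate ℓ M := Fintype.linearCombination ℤ_[ℓ] t
  refine Module.Finite.of_surjective f
    (surjective_of_mkQ_comp_surjective (I := maximalIdeal ℤ_[ℓ]) fun y => ?_)
  obtain ⟨x, rfl⟩ := Submodule.mkQ_surjective _ y
  have hs : ℓ • x.1 1 = 0 := by
    rw [x.2.2 0]
    exact x.2.1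
  have h1 : ∃ x' : Tate ℓ M, x'.1 1 = ((⟨x.1 1, hs⟩ : {m : M | ℓ • m = 0}) : M) := ⟨x, rfl⟩
  have h2 : (t ⟨x.1 1, hs⟩).1 1 = x.1 1 := by
    have e1 : t ⟨x.1 1, hs⟩ = h1.choose := dif_pos h1
    rw [e1]
    exact h1.choose_spec
  refine ⟨Pi.single ⟨x.1 1, hs⟩ 1, ?_⟩
  have h3 : f (Pi.single ⟨x.1 1, hs⟩ 1) = t ⟨x.1 1, hs⟩ := by
    show Fintype.linearCombination ℤ_[ℓ] t (Pi.single ⟨x.1 1, hs⟩ 1) = _
    rw [Fintype.linearCombination_apply_single, one_smul]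
  rw [LinearMap.comp_apply, h3, ← sub_eq_zero, ← map_sub, Submodule.mkQ_apply,
    Submodule.Quotient.mk_eq_zero]
  have h4 : (t ⟨x.1 1, hs⟩ - x).1 1 = 0 := by
    show (t ⟨x.1 1, hs⟩).1 1 - x.1 1 = 0
    rw [h2, sub_self]
  obtain ⟨y, hy⟩ := tf_div _ h4
  rw [← pow_one (maximalIdeal ℤ_[ℓ]), tf_mem]
  exact ⟨y, hy⟩

theorem tf_finiteDimensional (hfin : {m : M | ℓ • m = 0}.Finite) :
    FiniteDimensional ℚ_[ℓ] (VTate ℓ M) := by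
  have h1 := tf_finite hfin
  exact Module.Finite.base_change ℤ_[ℓ] ℚ_[ℓ] (Tate ℓ M)

end Pool.Agent.H.MP_ac3185_nt
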