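import Pool.Agent.H.MP_ac3185_nt.W.Tors
import Pool.Agent.H.MP_ac3185_nt.W.TateFin
import Pool.Agent.H.MP_ac3185_nt.W.Good
import Pool.Agent.H.MP_ac3185_nt.U.Defs

/-! The Tate modules of an abelian variety over a number field are finite dimensional, and abelian
varieties have good reduction at almost all places. -/

set_option autoImplicit false

open CategoryTheory AlgebraicGeometry NumberField IsDedekindDomain Filter
open scoped MonObj

namespace Pool.Agent.H.MP_ac3185_nt

universe u

/-- A copy of the field of complex numbers. -/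
theorem exists_cx (M : Type u) [Field M] [CharZero M] [Algebra.IsAlgebraic ℚ M] :
    ∃ (E : Type u) (_ : Field E) (_ : M →+* E) (_ : CharZero E) (v : AbsoluteValue E ℝ),
      ∀ (f : ℕ → E) (C : ℝ), (∀ n, v (f n) ≤ C) → ∃ l, VdLim v f l := by
  let τ : M →+* ℂ := (IsAlgClosed.lift (R := ℚ) (S := M) (M := ℂ) : M →ₐ[ℚ] ℂ).toRingHom
  let E := ULift.{u} ℂ
  let σ : M →+* E := (ULift.ringEquiv (R := ℂ)).symm.toRingHom.comp τ
  let v : AbsoluteValue E ℝ :=
    { toFun := fun x => ‖x.down‖
      map_mul' := fun x y => norm_mul x.down y.down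
      nonneg' := fun x => norm_nonneg x.down
      eq_zero' := fun x => by
        show ‖x.down‖ = 0 ↔ x = 0
        rw [norm_eq_zero]
        constructor
        · intro h
          exact ULift.ext _ _ h
        · rintro rfl
          rfl
      add_le' := fun x y => norm_add_le x.down y.down }
  refine ⟨E, inferInstance, σ, charZero_of_injective_ringHom σ.injective, v, ?_⟩
  intro f C hf
  have h1 : ∀ n, (f n).down ∈ Metric.closedBall (0 : ℂ) C := fun n => by
    rw [mem_closedBall_zero_iff]
    exact hf n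
  obtain ⟨l, -, hl⟩ := (isCompact_closedBall (0 : ℂ) C).ultrafilter_le_nhds
    (vdU.map fun n => (f n).down) (by
      rw [le_principal_iff]
      exact mem_map.2 (Eventually.of_forall h1))
  refine ⟨ULift.up l, fun ε hε => ?_⟩
  have h2 := hl (Metric.ball_mem_nhds l hε)
  have h3 : ∀ᶠ n in (vdU : Filter ℕ), (f n).down ∈ Metric.ball l ε := h2
  filter_upwards [h3] with n hn
  rw [mem_ball_iff_norm] at hn
  exact hn

variable {K : Type u} [Field K] [NumberField K]

/-- The group of the points of `A(Kbar)` killed by `m` is finite. -/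
theorem gc_torsion (A : Over (Spec (.of K))) [GrpObj A] [IsAbVar A] (m : ℕ) (hm : m ≠ 0) :
    {x : Pts A (AlgebraicClosure K) | m • x = 0}.Finite := by
  have halg : Algebra.IsAlgebraic ℚ (AlgebraicClosure K) := Algebra.IsAlgebraic.trans ℚ K _
  obtain ⟨E, _, σ, _, v, hc⟩ := exists_cx (AlgebraicClosure K)
  let _ : Algebra K E := (σ.comp (algebraMap K (AlgebraicClosure K))).toAlgebra
  let σ' : AlgebraicClosure K →ₐ[K] E := { σ with commutes' := fun _ => rfl }
  have hepi : Epi (Spec.map (CommRingCat.ofHom σ)) := ptsa_epi σ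
  have h1 := vt_finite A v hc m (Nat.cast_ne_zero.2 hm)
  let F : Pts A (AlgebraicClosure K) → (spR K E ⟶ A) := fun x =>
    spMap σ' ≫ (Additive.toMul x : specOver K (AlgebraicClosure K) ⟶ A)
  have hF : Function.Injective F := by
    intro x y hxy
    have h3 : Spec.map (CommRingCat.ofHom σ) ≫
        (Additive.toMul x : specOver K (AlgebraicClosure K) ⟶ A).left =
        Spec.map (CommRingCat.ofHom σ) ≫
          (Additive.toMul y : specOver K (AlgebraicClosure K) ⟶ A).left :=
      congrArg (fun m : spR K E ⟶ A => m.left) hxy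
    exact congrArg Additive.ofMul (Over.OverMorphism.ext ((cancel_epi _).1 h3))
  refine Set.Finite.of_finite_image (f := F) (h1.subset ?_) hF.injOn
  rintro _ ⟨x, hx, rfl⟩
  have hx' : m • x = 0 := hx
  show (spMap σ' ≫ (Additive.toMul x : specOver K (AlgebraicClosure K) ⟶ A)) ^ m = 1
  have h2 : (Additive.toMul x : specOver K (AlgebraicClosure K) ⟶ A) ^ m = 1 :=
    congrArg Additive.toMul hx'
  rw [← MonObj.comp_pow, h2, MonObj.comp_one]

/-- The rational Tate module is finite dimensional. -/
theorem gc_tate (A : Over (Spec (.of K))) [GrpObj A] [IsAbVar A] (ℓ : ℕ) [Fact ℓ.Prime] :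
    FiniteDimensional ℚ_[ℓ] (VTate ℓ (Pts A (AlgebraicClosure K))) :=
  tf_finiteDimensional (gc_torsion A ℓ (Fact.out : ℓ.Prime).ne_zero)

/-- Every abelian variety over a number field has good reduction outside a finite set of places, in
the sense of the criterion of Néron, Ogg and Shafarevich. -/
theorem gc_good (A : Over (Spec (.of K))) [GrpObj A] [IsAbVar A] :
    ∃ N : ℕ, N ≠ 0 ∧ GoodOutside A N := by
  obtain ⟨N, hN, h⟩ := gd_tate A
  exact ⟨N, hN, fun v hv 𝔓 h𝔓 ℓ _ hℓ => ⟨gc_tate A ℓ, h v hv 𝔓 h𝔓 ℓ hℓ⟩⟩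

end Pool.Agent.H.MP_ac3185_nt
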