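import Pool.Agent.H.MP_ac3185_nt.U.Main
import Pool.Agent.H.MP_ac3185_nt.W.Cx

/-! The conclusion for the twists of one abelian variety, in terms of the parity of cardinal
numbers. -/

set_option autoImplicit false

open CategoryTheory AlgebraicGeometry NumberField IsDedekindDomain
open scoped MonObj

namespace Pool.Agent.H.MP_ac3185_nt

universe u

/-- Infinite cardinals are even. -/
theorem gt_even_infinite (c : Cardinal.{u}) (h : Cardinal.aleph0 ≤ c) (n : ℕ) :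
    Even (c + (n : Cardinal)) := by
  have h1 : Cardinal.aleph0 ≤ c + (n : Cardinal) := h.trans (self_le_add_right c n)
  exact ⟨c + n, (Cardinal.add_eq_self h1).symm⟩

theorem gt_even_nat (r : ℕ) (h : Even r) : Even ((r : ℕ) : Cardinal.{u}) := by
  obtain ⟨k, rfl⟩ := h
  exact ⟨(k : Cardinal), by push_cast; rfl⟩

theorem gt_all {K : Type u} [Field K] [NumberField K]
    (A : Over (Spec (.of K))) [GrpObj A] [IsAbVar A] {N : ℕ} (hN : N ≠ 0) (hA : GoodOutside A N)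
    {S : Set ℕ} (hS : Adm N S) (s : ℕ → Finset ℕ) (d : ℕ → ℕ) (hd0 : ∀ j, d j = ∏ q ∈ s j, q)
    (n : ℕ) (hs : ∀ j, n ≤ j → ∀ q ∈ s j, q ∈ S) (hdisj : ∀ j k, j ≠ k → Disjoint (s j) (s k))
    (hd : ∀ j, d j ≠ 0) (c : ℕ)
    (hc : ∀ T' : Finset ℕ, T'.Nonempty → (∀ j ∈ T', n ≤ j) →
      chiRank A (∏ j ∈ T', d j) ≡ c [MOD 2])
    (F : IntermediateField K (AlgebraicClosure K)) (hF : AboveTower (sqrtTower K d n) F)
    (T : Finset ℕ) (hT : ∀ j ∈ T, n ≤ j)
    (B : Over (Spec (.of K))) [GrpObj B] [IsAbVar B] (hB : IsQuadTwist A B (∏ j ∈ T, d j)) :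
    (∀ W : LocalSigns K, IsRootNumberFamily B W → ∀ g : ℕ, signOver W g F = 1) ∧
      ((∀ x ∈ F, x ^ 2 ≠ ((∏ j ∈ T, d j : ℕ) : AlgebraicClosure K)) →
        Even (Module.rank ℤ (Pts B F))) ∧
      ((∃ x ∈ F, x ^ 2 = ((∏ j ∈ T, d j : ℕ) : AlgebraicClosure K)) →
        Even (Module.rank ℤ (Pts B F) + ((chiRank A 1 + c : ℕ) : Cardinal))) := by
  have hrank : ∀ (p : Prop) (m : ℕ), (∀ r : ℕ, Module.rank ℤ (Pts B F) = (r : Cardinal) →
      p → Even (r + m)) → p → Even (Module.rank ℤ (Pts B F) + ((m : ℕ) : Cardinal)) := by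
    intro p m h hp
    rcases lt_or_ge (Module.rank ℤ (Pts B F)) Cardinal.aleph0 with h1 | h1
    · obtain ⟨r, hr⟩ := Cardinal.lt_aleph0.1 h1
      have h2 := gt_even_nat _ (h r hr hp)
      rw [hr]
      push_cast at h2
      exact h2
    · exact gt_even_infinite _ h1 m
  refine ⟨?_, fun hx => ?_, ?_⟩
  · obtain ⟨hfd, hgal, _, ⟨Q, hQF, hQ2⟩, hquad⟩ := hF
    intro W hW g
    have hprod : ∏ j ∈ T, d j = ∏ q ∈ T.biUnion s, q := by
      rw [Finset.prod_biUnion (fun j _ k _ hjk => hdisj j k hjk)]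
      exact Finset.prod_congr rfl fun j _ => hd0 j
    rw [hprod] at hB
    refine root_twist A B hN hA hS (T.biUnion s) ?_ hB W hW g F ⟨Q, hQF, hQ2, ?_⟩
    · intro q hq
      obtain ⟨j, hj, hqj⟩ := Finset.mem_biUnion.1 hq
      exact hs j (hT j hj) q hqj
    · exact (hquad Q hQF hQ2).trans (sqrtTower_le S d n fun j hj => ⟨s j, hs j hj, hd0 j⟩)
  · have h1 := hrank (∀ x ∈ F, x ^ 2 ≠ ((∏ j ∈ T, d j : ℕ) : AlgebraicClosure K)) 0
      (fun r hr hx => by
        rw [add_zero]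
        exact rank_even_of_twist A B d hd n T hT hB c hc F hF hx r hr) hx
    rwa [Nat.cast_zero, add_zero] at h1
  · refine hrank _ (chiRank A 1 + c) fun r hr hx => ?_
    obtain ⟨x, hxF, hx⟩ := hx
    rw [rank_twist_eq A B _ hB F x hxF hx] at hr
    have h1 : r % 2 = (chiRank A 1 + c) % 2 := rank_const A d hd n c hc F hF r hr
    rw [Nat.even_iff]
    omega

end Pool.Agent.H.MP_ac3185_nt
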