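import Pool.Agent.H.MP_ac3185_nt.W.DivSch
import Pool.Agent.H.MP_ac3185_nt.W.Cx

/-! The group `A(Kbar)` is divisible for every abelian variety `A` over a number field `K`. -/

set_option autoImplicit false

open CategoryTheory Limits AlgebraicGeometry NumberField
open scoped MonObj

namespace Pool.Agent.H.MP_ac3185_nt

universe u

variable {K : Type u} [Field K] (A : Over (Spec (.of K))) [GrpObj A] [IsAbVar A]

/-- The multiplication by `m`. -/
noncomputable def dpMul (m : ℕ) : A.left ⟶ A.left := ((𝟙 A : A ⟶ A) ^ m).left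

theorem dpMul_w (m : ℕ) : dpMul A m ≫ A.hom = A.hom := Over.w _

/-- The unit section. -/
noncomputable def dpOne : Spec (.of K) ⟶ A.left :=
  (1 : Over.mk (𝟙 (Spec (.of K))) ⟶ A).left

theorem dpOne_w : dpOne A ≫ A.hom = 𝟙 _ := Over.w (1 : Over.mk (𝟙 (Spec (.of K))) ⟶ A)

theorem dpMul_comp {S : Scheme.{u}} {q : S ⟶ Spec (.of K)} (x : Over.mk q ⟶ A) (m : ℕ) :
    (x ^ m).left = x.left ≫ dpMul A m := by
  have h : x ≫ (𝟙 A : A ⟶ A) ^ m = x ^ m := by
    rw [MonObj.comp_pow, Category.comp_id]
  rw [← h]
  rfl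

theorem dpOne_comp {S : Scheme.{u}} (q : S ⟶ Spec (.of K)) :
    (1 : Over.mk q ⟶ A).left = q ≫ dpOne A := by
  have h : (Over.homMk q : Over.mk q ⟶ Over.mk (𝟙 (Spec (.of K)))) ≫
      (1 : Over.mk (𝟙 (Spec (.of K))) ⟶ A) = 1 := MonObj.comp_one _
  rw [← h]
  rfl

theorem dp_fibre (m : ℕ) (hfin : {x : Pts A (AlgebraicClosure K) | m • x = 0}.Finite) :
    (dpMul A m ⁻¹' Set.range (dpOne A)).Finite := by
  have hprop : IsProper A.hom := IsAbVar.proper
  have hF : IsProper (dpMul A m) := by
    have : IsProper (dpMul A m ≫ A.hom) := by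
      rw [dpMul_w]
      infer_instance
    exact IsProper.of_comp _ A.hom
  let κ : Spec (.of (AlgebraicClosure K)) ⟶ Spec (.of K) :=
    Spec.map (CommRingCat.ofHom (algebraMap K (AlgebraicClosure K)))
  let N := pullback (dpMul A m) (dpOne A)
  let s : N ⟶ Spec (.of K) := pullback.snd (dpMul A m) (dpOne A)
  let a : N ⟶ A.left := pullback.fst (dpMul A m) (dpOne A)
  have has : a ≫ dpMul A m = s ≫ dpOne A := pullback.condition
  let N' := pullback s κ
  let t : N' ⟶ Spec (.of (AlgebraicClosure K)) := pullback.snd s κ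
  let b : N' ⟶ N := pullback.fst s κ
  have hbt : b ≫ s = t ≫ κ := pullback.condition
  have hs : LocallyOfFiniteType s := inferInstance
  have ht : LocallyOfFiniteType t := inferInstance
  have haA : a ≫ A.hom = s := by
    calc a ≫ A.hom = a ≫ dpMul A m ≫ A.hom := by rw [dpMul_w]
      _ = s ≫ dpOne A ≫ A.hom := by rw [← Category.assoc, has, Category.assoc]
      _ = s := by rw [dpOne_w, Category.comp_id]
  -- the points
  let G : {p : Spec (.of (AlgebraicClosure K)) ⟶ N' // p ≫ t = 𝟙 _} →
      Pts A (AlgebraicClosure K) := fun p =>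
    Additive.ofMul (Over.homMk (U := specOver K (AlgebraicClosure K)) (p.1 ≫ b ≫ a) (by
      show (p.1 ≫ b ≫ a) ≫ A.hom = κ
      rw [Category.assoc, Category.assoc, haA, hbt, ← Category.assoc, p.2, Category.id_comp]))
  have hGinj : Function.Injective G := by
    intro p q hpq
    have h1 : p.1 ≫ b ≫ a = q.1 ≫ b ≫ a :=
      congrArg (fun x : specOver K (AlgebraicClosure K) ⟶ A => x.left) hpq
    apply Subtype.ext
    apply pullback.hom_ext
    · apply pullback.hom_ext
      · simpa only [Category.assoc] using h1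
      · show (p.1 ≫ b) ≫ s = (q.1 ≫ b) ≫ s
        rw [Category.assoc, Category.assoc, hbt, ← Category.assoc, ← Category.assoc, p.2, q.2]
    · exact p.2.trans q.2.symm
  have hGmem : ∀ p, G p ∈ {x : Pts A (AlgebraicClosure K) | m • x = 0} := by
    intro p
    show (Additive.toMul (G p) : specOver K (AlgebraicClosure K) ⟶ A) ^ m = 1
    apply Over.OverMorphism.ext
    rw [dpMul_comp, dpOne_comp]
    show (p.1 ≫ b ≫ a) ≫ dpMul A m = κ ≫ dpOne A
    rw [Category.assoc, Category.assoc, has]
    rw [← Category.assoc b, hbt, ← Category.assoc, ← Category.assoc, p.2, Category.id_comp]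
  have hfin1 : Finite {p : Spec (.of (AlgebraicClosure K)) ⟶ N' // p ≫ t = 𝟙 _} :=
    have := hfin.to_subtype
    Finite.of_injective (fun p => (⟨G p, hGmem p⟩ :
      {x : Pts A (AlgebraicClosure K) | m • x = 0})) fun p q h =>
        hGinj (congrArg Subtype.val h)
  have hfin2 : (closedPoints N').Finite := by
    rw [← Set.finite_coe_iff]
    exact Finite.of_equiv _ (pointEquivClosedPoint t)
  have hjac : JacobsonSpace N' := LocallyOfFiniteType.jacobsonSpace t
  have hcl : IsClosed (closedPoints N') := by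
    rw [← Set.biUnion_of_singleton (closedPoints N')]
    exact hfin2.isClosed_biUnion fun x hx => hx
  have hfin3 : Finite N' := by
    have h2 : closedPoints N' = Set.univ := by
      rw [← closure_closedPoints (X := N'), hcl.closure_eq]
    rw [h2] at hfin2
    exact Set.finite_univ_iff.1 hfin2
  have hsurj : Function.Surjective b := by
    have : Surjective b := inferInstance
    exact this.surj
  have hfin4 : Finite N := Finite.of_surjective b hsurj
  have h5 : Set.range a = dpMul A m ⁻¹' Set.range (dpOne A) := Scheme.Pullback.range_fst _ _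
  rw [← h5]
  exact Set.finite_range a

/-- The multiplication by `m` is surjective if its kernel is finite. -/
theorem dpMul_surjective (m : ℕ)
    (hfin : {x : Pts A (AlgebraicClosure K) | m • x = 0}.Finite) :
    Function.Surjective (dpMul A m) := by
  have hprop : IsProper A.hom := IsAbVar.proper
  have hgeo : GeometricallyIntegral A.hom := IsAbVar.geometricallyIntegral
  have hsub : Subsingleton (Spec (CommRingCat.of K)) :=
    inferInstanceAs (Subsingleton (PrimeSpectrum K))
  have hint : AlgebraicGeometry.IsIntegral A.left :=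
    GeometricallyIntegral.isIntegral_of_subsingleton A.hom
  let x0 : A.left := dpOne A (IsLocalRing.closedPoint K)
  have h1 : dpOne A ≫ dpMul A m = dpOne A := by
    have h2 := dpMul_comp A (1 : Over.mk (𝟙 (Spec (.of K))) ⟶ A) m
    rw [one_pow] at h2
    exact h2.symm
  have h2 : dpMul A m x0 = x0 := by
    show dpMul A m (dpOne A _) = _
    rw [← Scheme.Hom.comp_apply, h1]
  refine dp_surjective A.hom (dpMul A m) (dpMul_w A m) x0 ?_
  rw [h2]
  exact (dp_fibre A m hfin).subset (Set.preimage_mono (by
    rintro _ rfl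
    exact ⟨_, rfl⟩))

/-- `A(Kbar)` is `m`-divisible if its `m`-torsion is finite. -/
theorem dp_div (m : ℕ) (hfin : {x : Pts A (AlgebraicClosure K) | m • x = 0}.Finite)
    (x : Pts A (AlgebraicClosure K)) : ∃ y : Pts A (AlgebraicClosure K), m • y = x := by
  have hprop : IsProper A.hom := IsAbVar.proper
  have hF : IsProper (dpMul A m) := by
    have : IsProper (dpMul A m ≫ A.hom) := by
      rw [dpMul_w]
      infer_instance
    exact IsProper.of_comp _ A.hom
  have hs : Surjective (dpMul A m) := ⟨dpMul_surjective A m hfin⟩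
  let κ : Spec (.of (AlgebraicClosure K)) ⟶ Spec (.of K) :=
    Spec.map (CommRingCat.ofHom (algebraMap K (AlgebraicClosure K)))
  let x' : Spec (.of (AlgebraicClosure K)) ⟶ A.left :=
    (Additive.toMul x : specOver K (AlgebraicClosure K) ⟶ A).left
  have hx' : x' ≫ A.hom = κ := Over.w (Additive.toMul x : specOver K (AlgebraicClosure K) ⟶ A)
  let P := pullback (dpMul A m) x'
  let t : P ⟶ Spec (.of (AlgebraicClosure K)) := pullback.snd (dpMul A m) x'
  let b : P ⟶ A.left := pullback.fst (dpMul A m) x'
  have hbt : b ≫ dpMul A m = t ≫ x' := pullback.condition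
  have ht : LocallyOfFiniteType t := inferInstance
  have hts : Surjective t := inferInstance
  have hjac : JacobsonSpace P := LocallyOfFiniteType.jacobsonSpace t
  obtain ⟨c, -⟩ := hts.surj (IsLocalRing.closedPoint (AlgebraicClosure K))
  have hne : (closedPoints P).Nonempty := by
    by_contra h
    rw [Set.not_nonempty_iff_eq_empty] at h
    have h3 := closure_closedPoints (X := P)
    rw [h, closure_empty] at h3
    exact (h3 ▸ Set.mem_univ c : c ∈ (∅ : Set P))
  obtain ⟨z, hz⟩ := hne
  let q : Spec (.of (AlgebraicClosure K)) ⟶ P := pointOfClosedPoint t z hz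
  have hq : q ≫ t = 𝟙 _ := pointOfClosedPoint_comp t z hz
  have h4 : (q ≫ b) ≫ dpMul A m = x' := by
    rw [Category.assoc, hbt, ← Category.assoc, hq, Category.id_comp]
  have h5 : (q ≫ b) ≫ A.hom = κ := by
    calc (q ≫ b) ≫ A.hom = (q ≫ b) ≫ dpMul A m ≫ A.hom := by rw [dpMul_w]
      _ = ((q ≫ b) ≫ dpMul A m) ≫ A.hom := (Category.assoc _ _ _).symm
      _ = κ := by rw [h4, hx']
  let y : specOver K (AlgebraicClosure K) ⟶ A :=
    Over.homMk (U := specOver K (AlgebraicClosure K)) (q ≫ b) h5
  refine ⟨Additive.ofMul y, ?_⟩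
  show Additive.ofMul (y ^ m) = x
  have h6 : y ^ m = (Additive.toMul x : specOver K (AlgebraicClosure K) ⟶ A) := by
    apply Over.OverMorphism.ext
    rw [dpMul_comp]
    exact h4
  rw [h6]
  rfl

/-- The group `A(Kbar)` is divisible. -/
theorem gc_div {K : Type u} [Field K] [NumberField K] (A : Over (Spec (.of K))) [GrpObj A]
    [IsAbVar A] (m : ℕ) (hm : m ≠ 0) (x : Pts A (AlgebraicClosure K)) :
    ∃ y : Pts A (AlgebraicClosure K), m • y = x :=
  dp_div A m (gc_torsion A m hm) x

end Pool.Agent.H.MP_ac3185_nt
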