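import Mathlib.RingTheory.AlgebraicIndependent.TranscendenceBasis
import Mathlib.RingTheory.Algebraic.Integral

/-! An integral map between domains with the same field of fractions is injective. -/

set_option autoImplicit false

open Function

namespace Pool.Agent.H.MP_ac3185_nt

universe u

theorem dp_injective {k R S F : Type u} [Field k] [CommRing R] [IsDomain R] [CommRing S]
    [IsDomain S] [Field F] [Algebra k R] [Algebra k S] [Algebra k F] [Algebra S F]
    [IsScalarTower k S F] [FaithfulSMul S F] [Algebra.IsAlgebraic S F] [Algebra.FiniteType k R]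
    (φ : R →ₐ[k] S) (hφ : (φ : R →+* S).IsIntegral) (j : R →ₐ[k] F) (hj : Injective j) :
    Injective φ := by
  classical
  have halg : Algebra.IsAlgebraic (Algebra.adjoin k (Set.range φ)) S := by
    constructor
    intro s
    obtain ⟨p, hp, hps⟩ := hφ s
    let g : R →+* Algebra.adjoin k (Set.range φ) :=
      (φ : R →+* S).codRestrict (Algebra.adjoin k (Set.range φ)).toSubsemiring
        fun r => Algebra.subset_adjoin ⟨r, rfl⟩
    have hint : IsIntegral (Algebra.adjoin k (Set.range φ)) s := by
      refine ⟨p.map g, hp.map g, ?_⟩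
      rw [Polynomial.eval₂_map]
      exact hps
    exact hint.isAlgebraic
  obtain ⟨t, hts, ht⟩ := exists_isTranscendenceBasis_subset (R := k) (A := S) (Set.range φ)
  choose X hX using fun i : t => hts i.2
  have hcomp : (φ ∘ X : t → S) = Subtype.val := funext hX
  have hind : AlgebraicIndependent k X := by
    refine AlgebraicIndependent.of_comp φ ?_
    rw [hcomp]
    exact ht.1
  have hdeg : Algebra.trdeg k R ≤ Cardinal.mk t := by
    have h1 := trdeg_le_of_injective j hj
    have h2 := trdeg_add_eq k S (A := F)
    rw [trdeg_eq_zero (R := S) (A := F), add_zero] at h2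
    rw [ht.cardinalMk_eq_trdeg, h2]
    exact h1
  have hbasis := hind.isTranscendenceBasis_of_trdeg_le trdeg_lt_aleph0_of_finiteType hdeg
  have halg2 := hbasis.isAlgebraic
  rw [injective_iff_map_eq_zero]
  intro f hf
  by_contra hne
  obtain ⟨c, d, hd, hdc⟩ := Algebra.IsAlgebraic.exists_smul_eq_mul (Algebra.adjoin k (Set.range X))
    (1 : R) hne
  have hd1 : (d : R) = f * c := by
    rw [← hdc, Subalgebra.smul_def, smul_eq_mul, mul_one]
  have hd2 : φ (d : R) = 0 := by rw [hd1, map_mul, hf, zero_mul]
  have hd3 : (d : R) ∈ (MvPolynomial.aeval X : MvPolynomial t k →ₐ[k] R).range := by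
    rw [← Algebra.adjoin_range_eq_range_aeval]
    exact d.2
  obtain ⟨p, hp⟩ := hd3
  have hp0 : MvPolynomial.aeval (Subtype.val : t → S) p = 0 := by
    rw [← hcomp]
    have : MvPolynomial.aeval (φ ∘ X) p = φ (MvPolynomial.aeval X p) := by
      rw [MvPolynomial.comp_aeval_apply]
      rfl
    rw [this]
    have hp' : MvPolynomial.aeval X p = (d : R) := hp
    rw [hp']
    exact hd2
  have hpz : p = 0 := (injective_iff_map_eq_zero _).1 ht.1 p hp0
  apply hd
  apply Subtype.ext
  have hp' : MvPolynomial.aeval X p = (d : R) := hp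
  rw [← hp', hpz, map_zero]
  rfl

end Pool.Agent.H.MP_ac3185_nt
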