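import Pool.Agent.H.MP_ac3185_nt.W.DivAlg
import Mathlib.AlgebraicGeometry.ZariskisMainTheorem
import Mathlib.AlgebraicGeometry.AlgClosed.Basic
import Mathlib.AlgebraicGeometry.FunctionField

/-! A proper endomorphism of an integral scheme, proper over a field, with one finite nonempty fibre
is surjective. -/

set_option autoImplicit false

open CategoryTheory Limits AlgebraicGeometry

namespace Pool.Agent.H.MP_ac3185_nt

universe u

variable {K : Type u} [Field K] {X : Scheme.{u}}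

/-- The structure map of the sections. -/
noncomputable def dpStr (p : X ⟶ Spec (.of K)) (U : X.Opens) : CommRingCat.of K ⟶ Γ(X, U) :=
  (Scheme.ΓSpecIso (.of K)).inv ≫ p.appLE ⊤ U le_top

theorem dpStr_app (p : X ⟶ Spec (.of K)) (F : X ⟶ X) (hF : F ≫ p = p) (U : X.Opens) :
    dpStr p U ≫ F.app U = dpStr p (F ⁻¹ᵁ U) := by
  unfold dpStr
  rw [Category.assoc]
  congr 1
  rw [Scheme.Hom.app_eq_appLE, Scheme.Hom.appLE_comp_appLE]
  simp only [hF]

theorem dpStr_finiteType (p : X ⟶ Spec (.of K)) [LocallyOfFiniteType p] {U : X.Opens}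
    (hU : IsAffineOpen U) : (dpStr p U).hom.FiniteType := by
  have h1 := p.finiteType_appLE (isAffineOpen_top _) hU le_top
  unfold dpStr
  rw [CommRingCat.hom_comp]
  refine h1.comp (RingHom.FiniteType.of_surjective _ ?_)
  exact (ConcreteCategory.bijective_of_isIso (Scheme.ΓSpecIso (.of K)).inv).2

theorem dp_app_injective [IsIntegral X] (p : X ⟶ Spec (.of K)) [LocallyOfFiniteType p]
    (F : X ⟶ X) (hF : F ≫ p = p) (U : X.Opens) (hU : IsAffineOpen U)
    (hU' : IsAffineOpen (F ⁻¹ᵁ U)) [Nonempty U] [Nonempty (F ⁻¹ᵁ U)]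
    (hfin : (F.app U).hom.Finite) : Function.Injective (F.app U).hom := by
  let _ : Algebra K Γ(X, U) := (dpStr p U).hom.toAlgebra
  let _ : Algebra K Γ(X, F ⁻¹ᵁ U) := (dpStr p (F ⁻¹ᵁ U)).hom.toAlgebra
  let _ : Algebra K X.functionField :=
    (dpStr p (F ⁻¹ᵁ U) ≫ X.germToFunctionField (F ⁻¹ᵁ U)).hom.toAlgebra
  have _ : IsScalarTower K Γ(X, F ⁻¹ᵁ U) X.functionField := IsScalarTower.of_algebraMap_eq' rfl
  have _ : IsFractionRing Γ(X, F ⁻¹ᵁ U) X.functionField :=
    functionField_isFractionRing_of_isAffineOpen X (F ⁻¹ᵁ U) hU'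
  have _ : Algebra.FiniteType K Γ(X, U) := dpStr_finiteType p hU
  let φ : Γ(X, U) →ₐ[K] Γ(X, F ⁻¹ᵁ U) :=
    { (F.app U).hom with
      commutes' := fun r => ConcreteCategory.congr_hom (dpStr_app p F hF U) r }
  have hstr : dpStr p U ≫ X.germToFunctionField U =
      dpStr p (F ⁻¹ᵁ U) ≫ X.germToFunctionField (F ⁻¹ᵁ U) := by
    unfold dpStr Scheme.germToFunctionField Scheme.Hom.appLE
    simp only [Category.assoc, TopCat.Presheaf.germ_res]
  let j : Γ(X, U) →ₐ[K] X.functionField :=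
    { (X.germToFunctionField U).hom with
      commutes' := fun r => ConcreteCategory.congr_hom hstr r }
  have hφ : (φ : Γ(X, U) →+* Γ(X, F ⁻¹ᵁ U)).IsIntegral := hfin.to_isIntegral
  have h1 : FaithfulSMul Γ(X, F ⁻¹ᵁ U) X.functionField := by
    rw [faithfulSMul_iff_algebraMap_injective]
    exact IsFractionRing.injective _ _
  have h2 : Algebra.IsAlgebraic Γ(X, F ⁻¹ᵁ U) X.functionField :=
    IsLocalization.isAlgebraic _ (nonZeroDivisors Γ(X, F ⁻¹ᵁ U))
  exact dp_injective (F := X.functionField) φ hφ j (Scheme.germToFunctionField_injective X U)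

theorem dp_surjective [IsIntegral X] (p : X ⟶ Spec (.of K)) [IsProper p]
    (F : X ⟶ X) (hF : F ≫ p = p) (x : X) (hx : (F ⁻¹' {F x}).Finite) :
    Function.Surjective F := by
  have hprop : IsProper F := by
    have : IsProper (F ≫ p) := by
      rw [hF]
      infer_instance
    exact IsProper.of_comp F p
  obtain ⟨V, hV, hfin⟩ :=
    exists_isFinite_morphismRestrict_of_finite_preimage_singleton F (F x) hx
  obtain ⟨W, hW, hxW, -⟩ := exists_isAffineOpen_mem_and_subset (X := V.toScheme)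
    (x := ⟨F x, hV⟩) (U := ⊤) trivial
  have hU : IsAffineOpen (V.ι ''ᵁ W) := hW.image_of_isOpenImmersion V.ι
  have hU' : IsAffineOpen (F ⁻¹ᵁ (V.ι ''ᵁ W)) := by
    rw [← image_morphismRestrict_preimage]
    exact (hW.preimage (F ∣_ V)).image_of_isOpenImmersion _
  have hxU : F x ∈ V.ι ''ᵁ W := ⟨⟨F x, hV⟩, hxW, rfl⟩
  have hne : Nonempty (V.ι ''ᵁ W) := ⟨⟨F x, hxU⟩⟩
  have hne' : Nonempty (F ⁻¹ᵁ (V.ι ''ᵁ W)) := ⟨⟨x, hxU⟩⟩
  have hfin2 : (F.app (V.ι ''ᵁ W)).hom.Finite := by
    have h1 := (F ∣_ V).finite_app W hW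
    have h2 : (F.app (V.ι ''ᵁ W) ≫
        X.presheaf.map (eqToHom (image_morphismRestrict_preimage F V W)).op).hom.Finite :=
      (morphismRestrict_app F V W) ▸ h1
    rw [CommRingCat.hom_comp] at h2
    rwa [RingHom.finite_respectsIso.cancel_right_isIso] at h2
  have hinj := dp_app_injective p F hF (V.ι ''ᵁ W) hU hU' hfin2
  have hsurj : Function.Surjective (PrimeSpectrum.comap (F.app (V.ι ''ᵁ W)).hom) :=
    hfin2.to_isIntegral.comap_surjective hinj
  have hrange : ((V.ι ''ᵁ W : X.Opens) : Set X) ⊆ Set.range F := by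
    intro y hy
    rw [← hU.range_fromSpec] at hy
    obtain ⟨y', rfl⟩ := hy
    obtain ⟨z, hz⟩ := hsurj y'
    have h2 := hU.SpecMap_appLE_fromSpec F hU' le_rfl
    rw [← Scheme.Hom.app_eq_appLE] at h2
    refine ⟨hU'.fromSpec z, ?_⟩
    rw [← Scheme.Hom.comp_apply, ← h2, Scheme.Hom.comp_apply]
    exact congrArg _ hz
  have hdense : Dense ((V.ι ''ᵁ W : X.Opens) : Set X) :=
    (V.ι ''ᵁ W : X.Opens).isOpen.dense ⟨F x, hxU⟩
  have hclosed : IsClosed (Set.range F) := F.isClosedMap.isClosed_range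
  rw [← Set.range_eq_univ]
  exact Set.eq_univ_of_univ_subset (hdense.closure_eq ▸ closure_minimal hrange hclosed)

end Pool.Agent.H.MP_ac3185_nt
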