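import Pool.Agent.H.MP_ac3185_nt.V.DivC

/-! The ultraproduct of valuation rings of a field. -/

set_option autoImplicit false

open Filter

namespace Pool.Agent.H.MP_ac3185_nt

universe u

/-- The ultrapower `F` of the field `E`, the ultraproduct `O` of the valuation rings `V n`, its
residue field `k`, and the class `gm` of a sequence. -/
structure GdRing (K E : Type u) [Field K] [Field E] [Algebra K E] (V : ℕ → ValuationSubring E) where
  /-- the ultrapower -/
  F : Type u
  [fieldF : Field F]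
  [algF : Algebra K F]
  /-- the ultraproduct of the valuation rings -/
  O : Type u
  [ringO : CommRing O]
  [domO : IsDomain O]
  [valO : ValuationRing O]
  [algKO : Algebra K O]
  [algOF : Algebra O F]
  [frac : IsFractionRing O F]
  [tower : IsScalarTower K O F]
  /-- the residue field -/
  k : Type u
  [fieldk : Field k]
  [algk : Algebra K k]
  /-- the class of a sequence -/
  gm : (ℕ → E) →ₐ[K] F
  /-- the residue map -/
  res : O →ₐ[K] k
  gm_zero : ∀ f, gm f = 0 ↔ ∀ᶠ n in (vdU : Filter ℕ), f n = 0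
  gm_surj : Function.Surjective gm
  mem : ∀ f : ℕ → E, (∀ᶠ n in (vdU : Filter ℕ), (V n).valuation (f n) ≤ 1) →
    ∃ a : O, algebraMap O F a = gm f
  mem' : ∀ (a : O) (f : ℕ → E), gm f = algebraMap O F a →
    ∀ᶠ n in (vdU : Filter ℕ), (V n).valuation (f n) ≤ 1
  res_zero : ∀ (a : O) (f : ℕ → E), gm f = algebraMap O F a →
    (res a = 0 ↔ ∀ᶠ n in (vdU : Filter ℕ), (V n).valuation (f n) < 1)
  isUnit : ∀ a : O, res a ≠ 0 → IsUnit a

attribute [instance] GdRing.fieldF GdRing.algF GdRing.ringO GdRing.domO GdRing.valO GdRing.algKO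
  GdRing.algOF GdRing.frac GdRing.tower GdRing.fieldk GdRing.algk

section construction

variable {E F : Type u} [Field E] [Field F] (V : ℕ → ValuationSubring E) (gm : (ℕ → E) →+* F)
  (hgm : ∀ f, gm f = 0 ↔ ∀ᶠ n in (vdU : Filter ℕ), f n = 0) (hs : Function.Surjective gm)

/-- The ultraproduct of the valuation rings. -/
def gdO : ValuationSubring F where
  carrier := {a | ∃ f : ℕ → E, (∀ n, (V n).valuation (f n) ≤ 1) ∧ gm f = a}
  mul_mem' := by
    rintro _ _ ⟨f, hf, rfl⟩ ⟨g, hg, rfl⟩
    refine ⟨f * g, fun n => ?_, map_mul _ _ _⟩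
    show (V n).valuation (f n * g n) ≤ 1
    rw [map_mul]
    exact mul_le_one' (hf n) (hg n)
  one_mem' := ⟨1, fun n => (map_one (V n).valuation).le, map_one _⟩
  add_mem' := by
    rintro _ _ ⟨f, hf, rfl⟩ ⟨g, hg, rfl⟩
    exact ⟨f + g, fun n => (V n).valuation.map_add_le (hf n) (hg n), map_add _ _ _⟩
  zero_mem' := ⟨0, fun n => by
    show (V n).valuation 0 ≤ 1
    rw [map_zero]
    exact zero_le_one, map_zero _⟩
  neg_mem' := by
    rintro _ ⟨f, hf, rfl⟩
    exact ⟨-f, fun n => ((V n).valuation.map_neg (f n)).trans_le (hf n), map_neg _ _⟩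
  mem_or_inv_mem' := by
    classical
    intro a
    obtain ⟨f, rfl⟩ := hs a
    rcases Ultrafilter.em vdU (fun n => (V n).valuation (f n) ≤ 1) with h | h
    · left
      refine ⟨fun n => if (V n).valuation (f n) ≤ 1 then f n else 0, fun n => ?_, ?_⟩
      · show (V n).valuation (if (V n).valuation (f n) ≤ 1 then f n else 0) ≤ 1
        split_ifs with h1
        · exact h1
        · rw [map_zero]; exact zero_le_one
      · rw [vdc_eq gm hgm]
        exact h.mono fun n hn => if_pos hn
    · right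
      refine ⟨fun n => if (V n).valuation (f n) ≤ 1 then 0 else (f n)⁻¹, fun n => ?_, ?_⟩
      · show (V n).valuation (if (V n).valuation (f n) ≤ 1 then 0 else (f n)⁻¹) ≤ 1
        split_ifs with h1
        · rw [map_zero]; exact zero_le_one
        · rw [map_inv₀]
          exact inv_le_one_of_one_le₀ (not_le.1 h1).le
      · apply eq_inv_of_mul_eq_one_left
        rw [← map_mul, ← map_one gm, vdc_eq gm hgm]
        refine h.mono fun n hn => ?_
        have h1 : (fun n => if (V n).valuation (f n) ≤ 1 then 0 else (f n)⁻¹) n = (f n)⁻¹ :=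
          if_neg hn
        show (fun n => if (V n).valuation (f n) ≤ 1 then 0 else (f n)⁻¹) n * f n = 1
        rw [h1]
        refine inv_mul_cancel₀ fun h0 => hn ?_
        rw [h0, map_zero]
        exact zero_le_one

theorem gdO_mem (f : ℕ → E) (h : ∀ᶠ n in (vdU : Filter ℕ), (V n).valuation (f n) ≤ 1) :
    gm f ∈ gdO V gm hgm hs := by
  classical
  refine ⟨fun n => if (V n).valuation (f n) ≤ 1 then f n else 0, fun n => ?_, ?_⟩
  · show (V n).valuation (if (V n).valuation (f n) ≤ 1 then f n else 0) ≤ 1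
    split_ifs with h1
    · exact h1
    · rw [map_zero]; exact zero_le_one
  · rw [vdc_eq gm hgm]
    exact h.mono fun n hn => if_pos hn

theorem gdO_mem' (f : ℕ → E) (h : gm f ∈ gdO V gm hgm hs) :
    ∀ᶠ n in (vdU : Filter ℕ), (V n).valuation (f n) ≤ 1 := by
  obtain ⟨g, hg, hgf⟩ := h
  filter_upwards [(vdc_eq gm hgm).1 hgf] with n hn
  rw [← hn]
  exact hg n

theorem gdO_unit (a : gdO V gm hgm hs) (f : ℕ → E) (hf : gm f = a) :
    ¬ IsUnit a ↔ ∀ᶠ n in (vdU : Filter ℕ), (V n).valuation (f n) < 1 := by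
  constructor
  · intro h
    rcases Ultrafilter.em vdU (fun n => (V n).valuation (f n) < 1) with h1 | h1
    · exact h1
    · exfalso
      have h2 : ∀ᶠ n in (vdU : Filter ℕ), (V n).valuation ((f n)⁻¹) ≤ 1 := by
        filter_upwards [h1] with n hn
        rw [map_inv₀]
        exact inv_le_one_of_one_le₀ (not_lt.1 hn)
      apply h
      refine IsUnit.of_mul_eq_one ⟨gm (fun n => (f n)⁻¹), gdO_mem V gm hgm hs _ h2⟩ ?_
      apply Subtype.ext
      show (a : F) * gm (fun n => (f n)⁻¹) = 1
      rw [← hf, ← map_mul, ← map_one gm, vdc_eq gm hgm]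
      filter_upwards [h1] with n hn
      show f n * (f n)⁻¹ = 1
      refine mul_inv_cancel₀ fun h0 => hn ?_
      rw [h0, map_zero]
      exact zero_lt_one
  · intro h hu
    obtain ⟨b, hb⟩ := hu.exists_right_inv
    obtain ⟨_, g, hg, rfl⟩ := b
    have h1 : gm (f * g) = gm 1 := by
      rw [map_mul, hf, map_one]
      exact congrArg Subtype.val hb
    obtain ⟨n, h2, h3⟩ := (((vdc_eq gm hgm).1 h1).and h).exists
    have h4 : f n * g n = 1 := h2
    have h5 : (V n).valuation (f n * g n) < 1 := by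
      rw [map_mul]
      exact mul_lt_one_of_lt_of_le h3 (hg n)
    rw [h4, map_one] at h5
    exact lt_irrefl _ h5

end construction

theorem exists_gdRing (K E : Type u) [Field K] [Field E] [Algebra K E]
    (V : ℕ → ValuationSubring E)
    (hK : ∀ c : K, ∀ᶠ n in (vdU : Filter ℕ), (V n).valuation (algebraMap K E c) ≤ 1) :
    Nonempty (GdRing K E V) := by
  classical
  let F := Filter.Germ (vdU : Filter ℕ) E
  let gm : (ℕ → E) →+* F := Filter.Germ.coeRingHom (vdU : Filter ℕ)
  have hgm : ∀ f, gm f = 0 ↔ ∀ᶠ n in (vdU : Filter ℕ), f n = 0 := by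
    intro f
    exact Filter.Germ.coe_eq
  have hs : Function.Surjective gm := fun a => Filter.Germ.inductionOn a fun f => ⟨f, rfl⟩
  let _ : Algebra K F := (gm.comp (algebraMap K (ℕ → E))).toAlgebra
  let O := gdO V gm hgm hs
  let i : K →+* O := (algebraMap K F).codRestrict O.toSubring fun a =>
    gdO_mem V gm hgm hs (fun _ => algebraMap K E a) (hK a)
  let _ : Algebra K O := i.toAlgebra
  let k := IsLocalRing.ResidueField O
  let _ : Algebra K k := ((IsLocalRing.residue O).comp (algebraMap K O)).toAlgebra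
  have hres : ∀ a : O, IsLocalRing.residue O a = 0 ↔ ¬ IsUnit a := by
    intro a
    rw [IsLocalRing.residue_eq_zero_iff, IsLocalRing.mem_maximalIdeal]
    rfl
  exact ⟨{
    F := F
    O := O
    k := k
    tower := IsScalarTower.of_algebraMap_eq fun _ => rfl
    gm := { gm with commutes' := fun _ => rfl }
    res := { IsLocalRing.residue O with commutes' := fun _ => rfl }
    gm_zero := hgm
    gm_surj := hs
    mem := fun f h => ⟨⟨gm f, gdO_mem V gm hgm hs f h⟩, rfl⟩
    mem' := fun a f hf => gdO_mem' V gm hgm hs f (by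
      have h1 : gm f = (a : F) := hf
      rw [h1]
      exact a.2)
    res_zero := fun a f hf => (hres a).trans (gdO_unit V gm hgm hs a f hf)
    isUnit := fun a ha => by
      by_contra h
      exact ha ((hres a).2 h) }⟩

section aut

variable {K E : Type u} [Field K] [Field E] [Algebra K E] {V : ℕ → ValuationSubring E}

theorem GdRing.inj (D : GdRing K E V) : Function.Injective (algebraMap D.O D.F) :=
  IsFractionRing.injective D.O D.F

/-- The action of a sequence of automorphisms on the sequences. -/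
def gdSeq (s : ℕ → (E ≃ₐ[K] E)) : (ℕ → E) →ₐ[K] (ℕ → E) :=
  Pi.algHom K (fun _ => E) fun n => ((s n : E ≃ₐ[K] E) : E →ₐ[K] E).comp
    (Pi.evalAlgHom K (fun _ => E) n)

/-- A sequence of automorphisms which are trivial on the residue fields. -/
theorem GdRing.exists_aut (D : GdRing K E V) (s : ℕ → (E ≃ₐ[K] E))
    (hs : ∀ n x, (V n).valuation x ≤ 1 → (V n).valuation (s n x - x) < 1) :
    ∃ (SF : D.F →ₐ[K] D.F) (SO : D.O →ₐ[K] D.O), SF.comp D.gm = D.gm.comp (gdSeq s) ∧
      (IsScalarTower.toAlgHom K D.O D.F).comp SO = SF.comp (IsScalarTower.toAlgHom K D.O D.F) ∧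
      D.res.comp SO = D.res := by
  have hker : RingHom.ker (D.gm : (ℕ → E) →+* D.F) ≤
      RingHom.ker ((D.gm.comp (gdSeq s) : (ℕ → E) →ₐ[K] D.F) : (ℕ → E) →+* D.F) := by
    intro f hf
    have h1 : D.gm f = 0 := hf
    show D.gm (gdSeq s f) = 0
    rw [D.gm_zero] at h1 ⊢
    filter_upwards [h1] with n hn
    show s n (f n) = 0
    rw [hn, map_zero]
  let SF : D.F →ₐ[K] D.F := AlgHom.liftOfSurjective D.gm D.gm_surj (D.gm.comp (gdSeq s)) hker
  have hSF : SF.comp D.gm = D.gm.comp (gdSeq s) := by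
    ext f
    exact AlgHom.liftOfSurjective_apply D.gm D.gm_surj (D.gm.comp (gdSeq s)) hker f
  have hSF' : ∀ f, SF (D.gm f) = D.gm (gdSeq s f) := fun f =>
    congrArg (fun m : (ℕ → E) →ₐ[K] D.F => m f) hSF
  let iO := IsScalarTower.toAlgHom K D.O D.F
  have hiO : Function.Injective iO := D.inj
  have hbd : ∀ a : D.O, ∀ f : ℕ → E, D.gm f = iO a →
      ∀ᶠ n in (vdU : Filter ℕ), (V n).valuation (s n (f n)) ≤ 1 := by
    intro a f hf
    filter_upwards [D.mem' a f hf] with n hn
    have h1 := hs n (f n) hn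
    have h2 : s n (f n) = (s n (f n) - f n) + f n := by ring
    rw [h2]
    exact (V n).valuation.map_add_le h1.le hn
  have h1 : ∀ a : D.O, (SF.comp iO) a ∈ iO.range := by
    intro a
    obtain ⟨f, hf⟩ := D.gm_surj (iO a)
    obtain ⟨b, hb⟩ := D.mem (gdSeq s f) (hbd a f hf)
    refine ⟨b, ?_⟩
    show algebraMap D.O D.F b = SF (iO a)
    rw [hb, ← hf, hSF']
  let SO : D.O →ₐ[K] D.O := ((AlgEquiv.ofInjective iO hiO).symm : iO.range →ₐ[K] D.O).comp
    ((SF.comp iO).codRestrict iO.range h1)
  have h2 : iO.comp SO = SF.comp iO := by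
    ext a
    have h3 := (AlgEquiv.ofInjective iO hiO).apply_symm_apply ⟨(SF.comp iO) a, h1 a⟩
    exact congrArg Subtype.val h3
  refine ⟨SF, SO, hSF, h2, ?_⟩
  ext a
  show D.res (SO a) = D.res a
  rw [← sub_eq_zero, ← map_sub]
  obtain ⟨f, hf⟩ := D.gm_surj (iO a)
  have h3 : D.gm (gdSeq s f - f) = algebraMap D.O D.F (SO a - a) := by
    have e1 : algebraMap D.O D.F (SO a) = SF (iO a) :=
      congrArg (fun m : D.O →ₐ[K] D.F => m a) h2
    have e2 : algebraMap D.O D.F a = iO a := rfl
    rw [map_sub, map_sub, e1, e2, ← hf, hSF']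
  rw [D.res_zero _ _ h3]
  filter_upwards [D.mem' a f hf] with n hn
  exact hs n (f n) hn

end aut

end Pool.Agent.H.MP_ac3185_nt
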