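import Pool.Agent.H.MP_ac3185_nt.W.Sum
import Pool.Agent.H.MP_ac3185_nt.W.Ultra

/-! The points which reduce to the origin, for almost all valuation rings. -/

set_option autoImplicit false

open CategoryTheory AlgebraicGeometry NumberField Filter
open scoped MonObj

namespace Pool.Agent.H.MP_ac3185_nt

universe u

variable {K : Type u} [Field K] {A : Over (Spec (.of K))} [GrpObj A] {B E : Type u} [CommRing B]
  [Algebra K B] [Field E] [Algebra K E]

/-- The point `x` lies in the chart and its coordinates are in the maximal ideal. -/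
def NearV (V : ValuationSubring E) (j : spR K B ⟶ A) (G : Finset B) (x : spR K E ⟶ A) : Prop :=
  ∃ φ : B →ₐ[K] E, x = spMap φ ≫ j ∧ ∀ g ∈ G, V.valuation (φ g) < 1

/-- If the coordinates of two points are bounded by `c`, `|c| < 1`, then their product lies in the
chart, and its coordinates are the sums of the coordinates up to elements bounded by `c²`. -/
def SumV (V : ValuationSubring E) (j : spR K B ⟶ A) (G : Finset B) : Prop :=
  ∀ (c : E) (φ ψ : B →ₐ[K] E), V.valuation c < 1 → (∀ g ∈ G, V.valuation (φ g) ≤ V.valuation c) →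
    (∀ g ∈ G, V.valuation (ψ g) ≤ V.valuation c) →
    ∃ θ : B →ₐ[K] E, (spMap φ ≫ j) * (spMap ψ ≫ j) = spMap θ ≫ j ∧
      ∀ g ∈ G, V.valuation (θ g - (φ g + ψ g)) ≤ V.valuation (c * c)

section torsion

variable (V : ValuationSubring E) (j : spR K B ⟶ A) [IsOpenImmersion j.left] (ε : B →ₐ[K] K)
  (hε : (1 : spR K K ⟶ A) = spMap ε ≫ j) (G : Finset B) (hG : Algebra.adjoin K (G : Set B) = ⊤)
  (hG0 : ∀ g ∈ G, ε g = 0)

include hε hG hG0 in
/-- There is no torsion prime to the residue characteristic in the kernel of reduction. -/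
theorem NearV.torsion (hsum : SumV V j G) (x : spR K E ⟶ A) (hx : NearV V j G x) (m : ℕ)
    (hm : V.valuation (m : E) = 1) (h : x ^ m = 1) : x = 1 := by
  classical
  obtain ⟨φ, rfl, hφ⟩ := hx
  by_cases h0 : ∀ g ∈ G, φ g = 0
  · rw [vdZero_unique ε G hG hG0 φ h0, ← vdZero_spec j ε hε]
  · exfalso
    push Not at h0
    obtain ⟨g1, hg1, hg1'⟩ := h0
    obtain ⟨g0, hg0, hmax⟩ := Finset.exists_max_image G (fun g => V.valuation (φ g)) ⟨g1, hg1⟩
    obtain ⟨c, hc⟩ : ∃ c, c = φ g0 := ⟨_, rfl⟩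
    rw [← hc] at hmax
    have hc0 : 0 < V.valuation c := by
      refine lt_of_lt_of_le ?_ (hmax g1 hg1)
      exact zero_lt_iff.2 ((Valuation.ne_zero_iff _).2 hg1')
    have hc1 : V.valuation c < 1 := by
      rw [hc]
      exact hφ g0 hg0
    have hcc : V.valuation (c * c) ≤ V.valuation c := by
      rw [map_mul]
      exact mul_le_of_le_one_left' hc1.le
    have hnat : ∀ k : ℕ, V.valuation (k : E) ≤ 1 := fun k =>
      (V.valuation_le_one_iff _).2 (natCast_mem V k)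
    have key : ∀ k : ℕ, ∃ ψ : B →ₐ[K] E, (spMap φ ≫ j) ^ k = spMap ψ ≫ j ∧
        ∀ g ∈ G, V.valuation (ψ g - k * φ g) ≤ V.valuation (c * c) := by
      intro k
      induction k with
      | zero =>
        refine ⟨vdZero ε E, ?_, fun g hg => ?_⟩
        · rw [pow_zero, vdZero_spec j ε hε]
        · have e1 : vdZero ε E g = 0 := by
            show algebraMap K E (ε g) = 0
            rw [hG0 g hg, map_zero]
          rw [e1, Nat.cast_zero, zero_mul, sub_zero, map_zero]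
          exact zero_le
      | succ k ih =>
        obtain ⟨ψ, h1, h2⟩ := ih
        have h3 : ∀ g ∈ G, V.valuation (ψ g) ≤ V.valuation c := by
          intro g hg
          have e1 : ψ g = (ψ g - k * φ g) + k * φ g := by ring
          rw [e1]
          refine V.valuation.map_add_le ((h2 g hg).trans hcc) ?_
          rw [map_mul]
          exact (mul_le_of_le_one_left' (hnat k)).trans (hmax g hg)
        obtain ⟨θ, h4, h5⟩ := hsum c ψ φ hc1 h3 (fun g hg => hmax g hg)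
        refine ⟨θ, by rw [pow_succ, h1, h4], fun g hg => ?_⟩
        have e1 : θ g - ((k + 1 : ℕ) : E) * φ g =
            (θ g - (ψ g + φ g)) + (ψ g - k * φ g) := by
          push_cast
          ring
        rw [e1]
        exact V.valuation.map_add_le (h5 g hg) (h2 g hg)
    obtain ⟨ψ, h1, h2⟩ := key m
    have h3 : ψ = vdZero ε E := by
      apply vd_chart_mono j
      rw [← h1, h, vdZero_spec j ε hε]
    have h4 := h2 g0 hg0
    have e1 : ψ g0 = 0 := by
      rw [h3]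
      show algebraMap K E (ε g0) = 0
      rw [hG0 g0 hg0, map_zero]
    rw [e1, ← hc, zero_sub, Valuation.map_neg, map_mul, hm, one_mul, map_mul] at h4
    have h5 : V.valuation c * V.valuation c < V.valuation c := by
      calc V.valuation c * V.valuation c < 1 * V.valuation c :=
            mul_lt_mul_of_pos_right hc1 hc0
        _ = V.valuation c := one_mul _
    exact absurd h4 (not_le.2 h5)

end torsion

section ultra

variable {V : ℕ → ValuationSubring E} (D : GdRing K E V) (j : spR K B ⟶ A) [IsOpenImmersion j.left]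
  (ε : B →ₐ[K] K) (hε : (1 : spR K K ⟶ A) = spMap ε ≫ j) (G : Finset B)
  (hG : Algebra.adjoin K (G : Set B) = ⊤) (hG0 : ∀ g ∈ G, ε g = 0)

/-- The ideal of the elements bounded by `c`. -/
def gdJ (c : ℕ → E) : Ideal D.O where
  carrier := {a | ∃ f : ℕ → E, D.gm f = algebraMap D.O D.F a ∧
    ∀ᶠ n in (vdU : Filter ℕ), (V n).valuation (f n) ≤ (V n).valuation (c n)}
  zero_mem' := ⟨0, by rw [map_zero, map_zero], Eventually.of_forall fun n => by
    show (V n).valuation (0 : E) ≤ _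
    rw [map_zero]
    exact zero_le⟩
  add_mem' := by
    rintro a b ⟨f, h1, h2⟩ ⟨g, h3, h4⟩
    refine ⟨f + g, by rw [map_add, map_add, h1, h3], ?_⟩
    filter_upwards [h2, h4] with n e1 e2
    exact (V n).valuation.map_add_le e1 e2
  smul_mem' := by
    rintro r a ⟨f, h1, h2⟩
    obtain ⟨g, hg⟩ := D.gm_surj (algebraMap D.O D.F r)
    refine ⟨g * f, by rw [smul_eq_mul, map_mul, map_mul, hg, h1], ?_⟩
    filter_upwards [h2, D.mem' r g hg] with n e1 e2
    show (V n).valuation (g n * f n) ≤ _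
    rw [map_mul]
    exact (mul_le_of_le_one_left' e2).trans e1

include hε in
/-- Points with values in the ultraproduct of the valuation rings which reduce to the origin: almost
all components are near the origin. -/
theorem gd_near (hG0 : ∀ g ∈ G, ε g = 0) (Y : spR K (ℕ → E) ⟶ A)
    (Y' : spR K D.O ⟶ A)
    (h1 : spMap (IsScalarTower.toAlgHom K D.O D.F) ≫ Y' = spMap D.gm ≫ Y)
    (h2 : spMap D.res ≫ Y' = 1) :
    ∀ᶠ n in (vdU : Filter ℕ), NearV (V n) j G (spMap (vdEv K E n) ≫ Y) := by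
  have h4 : spMap D.res ≫ Y' = spMap (vdZero ε D.k) ≫ j := by rw [h2, ← vdZero_spec j ε hε]
  obtain ⟨φ, rfl⟩ := vd_point j D.res D.isUnit Y' (vdZero ε D.k) h4
  have h5 : D.res.comp φ = vdZero ε D.k := by
    apply vd_chart_mono j
    rw [spMap_comp, Category.assoc, h4]
  have h6 : spMap D.gm ≫ Y = spMap ((IsScalarTower.toAlgHom K D.O D.F).comp φ) ≫ j := by
    rw [← h1, spMap_comp, Category.assoc]
  have h7 : ∀ g ∈ G, ∀ᶠ n in (vdU : Filter ℕ), ∃ ψ : B →ₐ[K] E,
      spMap (vdEv K E n) ≫ Y = spMap ψ ≫ j ∧ (V n).valuation (ψ g) < 1 := by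
    intro g hg
    obtain ⟨f, hf⟩ := D.gm_surj (algebraMap D.O D.F (φ g))
    have h8 := vd_germ j vdU D.gm D.gm_zero Y _ h6 g f hf
    have h10 : D.res (φ g) = 0 := by
      have := congrArg (fun m : B →ₐ[K] D.k => m g) h5
      refine this.trans ?_
      show algebraMap K D.k (ε g) = 0
      rw [hG0 g hg, map_zero]
    have h9 := (D.res_zero (φ g) f hf).1 h10
    filter_upwards [h8, h9] with n e1 e2
    obtain ⟨ψ, hψ1, hψ2⟩ := e1
    exact ⟨ψ, hψ1, by rw [hψ2]; exact e2⟩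
  obtain ⟨f1, hf1⟩ := D.gm_surj (algebraMap D.O D.F (φ 1))
  have h8 := vd_germ j vdU D.gm D.gm_zero Y _ h6 1 f1 hf1
  have h9 : ∀ᶠ n in (vdU : Filter ℕ), ∀ g ∈ G, ∃ ψ : B →ₐ[K] E,
      spMap (vdEv K E n) ≫ Y = spMap ψ ≫ j ∧ (V n).valuation (ψ g) < 1 :=
    (eventually_all_finset G).2 h7
  filter_upwards [h8, h9] with n e2 e3
  obtain ⟨ψ, hψ, -⟩ := e2
  refine ⟨ψ, hψ, fun g hg => ?_⟩
  obtain ⟨ψ', hψ', h10⟩ := e3 g hg
  have h11 : ψ = ψ' := vd_chart_mono j (hψ.symm.trans hψ')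
  rw [h11]
  exact h10

include D hε in
/-- Automorphisms which are trivial on the residue fields move the points by points which are near the
origin. -/
theorem gd_aut [IsAbVar A] (hG0 : ∀ g ∈ G, ε g = 0) (s : ℕ → (E ≃ₐ[K] E))
    (hs : ∀ n x, (V n).valuation x ≤ 1 → (V n).valuation (s n x - x) < 1)
    (x : ℕ → (spR K E ⟶ A)) :
    ∀ᶠ n in (vdU : Filter ℕ),
      NearV (V n) j G ((spMap ((s n : E ≃ₐ[K] E) : E →ₐ[K] E) ≫ x n) / x n) := by
  have hp := (inferInstance : IsAbVar A).proper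
  have hc : CompactSpace A.left := by
    have h1 : QuasiCompact A.hom := inferInstance
    exact (quasiCompact_iff_compactSpace A.hom).1 h1
  obtain ⟨X, hX⟩ := vd_seq vdU x
  obtain ⟨X', hX'⟩ := vd_valuative (A := A) D.O (spMap D.gm ≫ X)
  obtain ⟨SF, SO, h1, h2, h3⟩ := D.exists_aut s hs
  have h4 := gd_near D j ε hε G hG0 ((spMap (gdSeq s) ≫ X) / X) ((spMap SO ≫ X') / X') (by
    rw [GrpObj.comp_div, GrpObj.comp_div, hX', ← Category.assoc, ← spMap_comp, h2, spMap_comp,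
      Category.assoc, hX', ← Category.assoc, ← spMap_comp, h1, spMap_comp, Category.assoc]) (by
    rw [GrpObj.comp_div, ← Category.assoc, ← spMap_comp, h3, div_self'])
  filter_upwards [h4, hX] with n e1 e2
  have e3 : (vdEv K E n).comp (gdSeq s) = ((s n : E ≃ₐ[K] E) : E →ₐ[K] E).comp (vdEv K E n) := rfl
  rw [GrpObj.comp_div, ← Category.assoc, ← spMap_comp, e3, spMap_comp, Category.assoc, e2] at e1
  exact e1

include D hε hG hG0 in
/-- The sum of points near the origin. -/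
theorem gd_sumV (c : ℕ → E) (φ ψ : ℕ → (B →ₐ[K] E)) (hc : ∀ n, (V n).valuation (c n) < 1)
    (hφ : ∀ n, ∀ g ∈ G, (V n).valuation (φ n g) ≤ (V n).valuation (c n))
    (hψ : ∀ n, ∀ g ∈ G, (V n).valuation (ψ n g) ≤ (V n).valuation (c n)) :
    ∀ᶠ n in (vdU : Filter ℕ), ∃ θ : B →ₐ[K] E,
      (spMap (φ n) ≫ j) * (spMap (ψ n) ≫ j) = spMap θ ≫ j ∧
      ∀ g ∈ G, (V n).valuation (θ g - (φ n g + ψ n g)) ≤ (V n).valuation (c n * c n) := by
  let iO := IsScalarTower.toAlgHom K D.O D.F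
  have hiO : Function.Injective iO := D.inj
  have hlift : ∀ φ : ℕ → (B →ₐ[K] E),
      (∀ n, ∀ g ∈ G, (V n).valuation (φ n g) ≤ (V n).valuation (c n)) →
      ∃ φ' : B →ₐ[K] D.O, iO.comp φ' = D.gm.comp (Pi.algHom K (fun _ => E) φ) ∧
        ∀ b, φ' b - algebraMap K D.O (ε b) ∈ gdJ D c := by
    intro φ hφ
    let Φ : B →ₐ[K] (ℕ → E) := Pi.algHom K (fun _ => E) φ
    have h1 : ∀ b, (D.gm.comp Φ) b ∈ iO.range := by
      intro b
      have h2 : (⊤ : Subalgebra K B) ≤ iO.range.comap (D.gm.comp Φ) := by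
        rw [← hG, Algebra.adjoin_le_iff]
        intro g hg
        obtain ⟨a, ha⟩ := D.mem (Φ g) (Eventually.of_forall fun n => ((hφ n g hg).trans (hc n).le))
        exact ⟨a, ha⟩
      exact h2 trivial
    let φ' : B →ₐ[K] D.O := ((AlgEquiv.ofInjective iO hiO).symm : iO.range →ₐ[K] D.O).comp
      ((D.gm.comp Φ).codRestrict iO.range h1)
    have h2 : iO.comp φ' = D.gm.comp Φ := by
      ext b
      have h3 := (AlgEquiv.ofInjective iO hiO).apply_symm_apply ⟨(D.gm.comp Φ) b, h1 b⟩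
      exact congrArg Subtype.val h3
    refine ⟨φ', h2, ?_⟩
    have e1 : (Ideal.Quotient.mkₐ K (gdJ D c)).comp φ' = vdZero ε (D.O ⧸ gdJ D c) := by
      apply vdZero_unique ε G hG hG0
      intro g hg
      show Ideal.Quotient.mk (gdJ D c) (φ' g) = 0
      rw [Ideal.Quotient.eq_zero_iff_mem]
      exact ⟨Φ g, (congrArg (fun m : B →ₐ[K] D.F => m g) h2).symm,
        Eventually.of_forall fun n => hφ n g hg⟩
    intro b
    rw [← Ideal.Quotient.eq_zero_iff_mem, map_sub, sub_eq_zero]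
    exact congrArg (fun m : B →ₐ[K] (D.O ⧸ gdJ D c) => m b) e1
  obtain ⟨φ', hφ1, hφ2⟩ := hlift φ hφ
  obtain ⟨ψ', hψ1, hψ2⟩ := hlift ψ hψ
  have hJ0 : ∀ d : ℕ → E, (∀ n, (V n).valuation (d n) < 1) → ∀ a ∈ gdJ D d, D.res a = 0 := by
    rintro d hd a ⟨f, h1, h2⟩
    rw [D.res_zero a f h1]
    filter_upwards [h2] with n hn
    exact hn.trans_lt (hd n)
  have hJJ : ∀ a ∈ gdJ D c, ∀ b ∈ gdJ D c, a * b ∈ gdJ D (fun n => c n * c n) := by
    rintro a ⟨f, h1, h2⟩ b ⟨g, h3, h4⟩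
    refine ⟨f * g, by rw [map_mul, map_mul, h1, h3], ?_⟩
    filter_upwards [h2, h4] with n e1 e2
    show (V n).valuation (f n * g n) ≤ (V n).valuation (c n * c n)
    rw [map_mul, map_mul]
    exact mul_le_mul' e1 e2
  have hcc : ∀ n, (V n).valuation (c n * c n) < 1 := by
    intro n
    rw [map_mul]
    exact mul_lt_one_of_lt_of_le (hc n) (hc n).le
  obtain ⟨θ, h1, h2⟩ := gd_sum D.res (gdJ D c) (gdJ D c) (gdJ D (fun n => c n * c n)) hJJ D.isUnit
    (hJ0 c hc) (hJ0 c hc) (hJ0 _ hcc) j ε hε φ' ψ' hφ2 hψ2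
  let Φ : B →ₐ[K] (ℕ → E) := Pi.algHom K (fun _ => E) φ
  let Ψ : B →ₐ[K] (ℕ → E) := Pi.algHom K (fun _ => E) ψ
  have h5 : spMap D.gm ≫ ((spMap Φ ≫ j) * (spMap Ψ ≫ j)) = spMap (iO.comp θ) ≫ j := by
    rw [spMap_comp, Category.assoc, ← h1, MonObj.comp_mul, MonObj.comp_mul, ← Category.assoc,
      ← spMap_comp, ← Category.assoc, ← spMap_comp, ← Category.assoc, ← spMap_comp,
      ← Category.assoc, ← spMap_comp, hφ1, hψ1]
  have hev : ∀ n, spMap (vdEv K E n) ≫ ((spMap Φ ≫ j) * (spMap Ψ ≫ j)) =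
      (spMap (φ n) ≫ j) * (spMap (ψ n) ≫ j) := by
    intro n
    rw [MonObj.comp_mul, ← Category.assoc, ← spMap_comp, ← Category.assoc, ← spMap_comp]
    rfl
  have h7 : ∀ g ∈ G, ∀ᶠ n in (vdU : Filter ℕ), ∃ χ : B →ₐ[K] E,
      (spMap (φ n) ≫ j) * (spMap (ψ n) ≫ j) = spMap χ ≫ j ∧
      (V n).valuation (χ g - (φ n g + ψ n g)) ≤ (V n).valuation (c n * c n) := by
    intro g hg
    obtain ⟨f, hf⟩ := D.gm_surj (algebraMap D.O D.F (θ g))
    have h8 := vd_germ j vdU D.gm D.gm_zero _ _ h5 g f hf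
    obtain ⟨f', h9, h10⟩ := h2 g
    have h11 : D.gm (f - (Φ g + Ψ g) - f') = 0 := by
      have e1 : D.gm (Φ g) = algebraMap D.O D.F (φ' g) :=
        (congrArg (fun m : B →ₐ[K] D.F => m g) hφ1).symm
      have e2 : D.gm (Ψ g) = algebraMap D.O D.F (ψ' g) :=
        (congrArg (fun m : B →ₐ[K] D.F => m g) hψ1).symm
      rw [map_sub, map_sub, map_add, hf, e1, e2, h9, hG0 g hg, map_zero, sub_zero, map_sub,
        map_add, sub_self]
    rw [D.gm_zero] at h11
    filter_upwards [h8, h10, h11] with n e1 e2 e3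
    obtain ⟨χ, hχ1, hχ2⟩ := e1
    refine ⟨χ, by rw [← hev, hχ1], ?_⟩
    have e5 : χ g - (φ n g + ψ n g) = f' n := by
      have : f n - (φ n g + ψ n g) - f' n = 0 := e3
      rw [hχ2]
      linear_combination this
    rw [e5]
    exact e2
  obtain ⟨f1, hf1⟩ := D.gm_surj (algebraMap D.O D.F (θ 1))
  have h8 := vd_germ j vdU D.gm D.gm_zero _ _ h5 1 f1 hf1
  have h9 : ∀ᶠ n in (vdU : Filter ℕ), ∀ g ∈ G, ∃ χ : B →ₐ[K] E,
      (spMap (φ n) ≫ j) * (spMap (ψ n) ≫ j) = spMap χ ≫ j ∧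
      (V n).valuation (χ g - (φ n g + ψ n g)) ≤ (V n).valuation (c n * c n) :=
    (eventually_all_finset G).2 h7
  filter_upwards [h8, h9] with n e2 e3
  obtain ⟨χ, hχ, -⟩ := e2
  rw [hev] at hχ
  refine ⟨χ, hχ, fun g hg => ?_⟩
  obtain ⟨χ', hχ', h10⟩ := e3 g hg
  have h11 : χ = χ' := vd_chart_mono j (hχ.symm.trans hχ')
  rw [h11]
  exact h10

end ultra

end Pool.Agent.H.MP_ac3185_nt
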