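import Pool.Agent.H.MP_ac3185_nt.V.DivF

/-! The sum of two points which are close to the origin. -/

set_option autoImplicit false

open CategoryTheory AlgebraicGeometry NumberField
open scoped MonObj

namespace Pool.Agent.H.MP_ac3185_nt

universe u

variable {K : Type u} [Field K]

section ring

variable {O k : Type u} [CommRing O] [Algebra K O] [Field k] [Algebra K k] (g : O →ₐ[K] k)
  (J J' J2 : Ideal O) (hJJ : ∀ a ∈ J, ∀ b ∈ J', a * b ∈ J2)

/-- The ring of the `(e, e + i, e + j, e + i + j + k)` with `i ∈ J`, `j ∈ J'`, `k ∈ J2`. -/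
def gdT : Subalgebra K (O × O × O × O) where
  carrier := {p | p.2.1 - p.1 ∈ J ∧ p.2.2.1 - p.1 ∈ J' ∧
    p.2.2.2 - (p.2.1 + p.2.2.1 - p.1) ∈ J2}
  mul_mem' := by
    rintro ⟨e, x, y, z⟩ ⟨e', x', y', z'⟩ ⟨h1, h2, h3⟩ ⟨h1', h2', h3'⟩
    change x - e ∈ J at h1
    change y - e ∈ J' at h2
    change z - (x + y - e) ∈ J2 at h3
    change x' - e' ∈ J at h1'
    change y' - e' ∈ J' at h2'
    change z' - (x' + y' - e') ∈ J2 at h3'
    refine ⟨?_, ?_, ?_⟩
    · show x * x' - e * e' ∈ J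
      have : x * x' - e * e' = x * (x' - e') + e' * (x - e) := by ring
      rw [this]
      exact J.add_mem (J.mul_mem_left _ h1') (J.mul_mem_left _ h1)
    · show y * y' - e * e' ∈ J'
      have : y * y' - e * e' = y * (y' - e') + e' * (y - e) := by ring
      rw [this]
      exact J'.add_mem (J'.mul_mem_left _ h2') (J'.mul_mem_left _ h2)
    · show z * z' - (x * x' + y * y' - e * e') ∈ J2
      have : z * z' - (x * x' + y * y' - e * e') =
          z * (z' - (x' + y' - e')) + (x' + y' - e') * (z - (x + y - e)) +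
            ((x - e) * (y' - e') + (x' - e') * (y - e)) := by
        ring
      rw [this]
      exact J2.add_mem (J2.add_mem (J2.mul_mem_left _ h3') (J2.mul_mem_left _ h3))
        (J2.add_mem (hJJ _ h1 _ h2') (hJJ _ h1' _ h2))
  add_mem' := by
    rintro ⟨e, x, y, z⟩ ⟨e', x', y', z'⟩ ⟨h1, h2, h3⟩ ⟨h1', h2', h3'⟩
    change x - e ∈ J at h1
    change y - e ∈ J' at h2
    change z - (x + y - e) ∈ J2 at h3
    change x' - e' ∈ J at h1'
    change y' - e' ∈ J' at h2'
    change z' - (x' + y' - e') ∈ J2 at h3'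
    refine ⟨?_, ?_, ?_⟩
    · show x + x' - (e + e') ∈ J
      have : x + x' - (e + e') = (x - e) + (x' - e') := by ring
      rw [this]
      exact J.add_mem h1 h1'
    · show y + y' - (e + e') ∈ J'
      have : y + y' - (e + e') = (y - e) + (y' - e') := by ring
      rw [this]
      exact J'.add_mem h2 h2'
    · show z + z' - (x + x' + (y + y') - (e + e')) ∈ J2
      have : z + z' - (x + x' + (y + y') - (e + e')) =
          (z - (x + y - e)) + (z' - (x' + y' - e')) := by
        ring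
      rw [this]
      exact J2.add_mem h3 h3'
  algebraMap_mem' := fun c => by
    refine ⟨?_, ?_, ?_⟩
    · show algebraMap K O c - algebraMap K O c ∈ J
      rw [sub_self]
      exact J.zero_mem
    · show algebraMap K O c - algebraMap K O c ∈ J'
      rw [sub_self]
      exact J'.zero_mem
    · show algebraMap K O c - (algebraMap K O c + algebraMap K O c - algebraMap K O c) ∈ J2
      rw [add_sub_cancel_right, sub_self]
      exact J2.zero_mem

theorem gdT_unit (hu : ∀ a, g a ≠ 0 → IsUnit a) (hJ : ∀ a ∈ J, g a = 0) (hJ' : ∀ a ∈ J', g a = 0)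
    (hJ2 : ∀ a ∈ J2, g a = 0) (p : gdT (K := K) J J' J2 hJJ) (hp : g p.1.1 ≠ 0) : IsUnit p := by
  obtain ⟨⟨e, x, y, z⟩, h1, h2, h3⟩ := p
  change x - e ∈ J at h1
  change y - e ∈ J' at h2
  change z - (x + y - e) ∈ J2 at h3
  change g e ≠ 0 at hp
  have ex : g x = g e := by
    have := hJ _ h1
    rw [map_sub, sub_eq_zero] at this
    exact this
  have ey : g y = g e := by
    have := hJ' _ h2
    rw [map_sub, sub_eq_zero] at this
    exact this
  have ez : g z = g e := by
    have := hJ2 _ h3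
    rw [map_sub, map_sub, map_add, ex, ey, sub_eq_zero, add_sub_cancel_right] at this
    exact this
  obtain ⟨e', he⟩ := (hu e hp).exists_right_inv
  obtain ⟨x', hx⟩ := (hu x (ex ▸ hp)).exists_right_inv
  obtain ⟨y', hy⟩ := (hu y (ey ▸ hp)).exists_right_inv
  obtain ⟨z', hz⟩ := (hu z (ez ▸ hp)).exists_right_inv
  have h1' : x' - e' ∈ J := by
    have : x' - e' = -(x' * e') * (x - e) := by
      linear_combination e' * hx - x' * he
    rw [this]
    exact J.mul_mem_left _ h1
  have h2' : y' - e' ∈ J' := by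
    have : y' - e' = -(y' * e') * (y - e) := by
      linear_combination e' * hy - y' * he
    rw [this]
    exact J'.mul_mem_left _ h2
  have h3' : z' - (x' + y' - e') ∈ J2 := by
    have : z' - (x' + y' - e') = -z' * ((x - e) * (y' - e') + (x' - e') * (y - e)) -
        z' * (x' + y' - e') * (z - (x + y - e)) := by
      linear_combination (x' + y' - e') * hz - z' * hx - z' * hy + z' * he
    rw [this]
    exact J2.sub_mem (J2.mul_mem_left _ (J2.add_mem (hJJ _ h1 _ h2') (hJJ _ h1' _ h2)))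
      (J2.mul_mem_left _ h3)
  refine IsUnit.of_mul_eq_one ⟨⟨e', x', y', z'⟩, h1', h2', h3'⟩ ?_
  apply Subtype.ext
  exact Prod.ext he (Prod.ext hx (Prod.ext hy hz))

end ring

section sum

variable {A : Over (Spec (.of K))} [GrpObj A] {B O k : Type u} [CommRing B] [Algebra K B]
  [CommRing O] [Algebra K O] [Field k] [Algebra K k] (g : O →ₐ[K] k)
  (J J' J2 : Ideal O) (hJJ : ∀ a ∈ J, ∀ b ∈ J', a * b ∈ J2)

include hJJ in
/-- The coordinates of the product of two points which are trivial modulo `J` and `J'` are the sums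
of the coordinates modulo `J2`. -/
theorem gd_sum (hu : ∀ a, g a ≠ 0 → IsUnit a) (hJ : ∀ a ∈ J, g a = 0) (hJ' : ∀ a ∈ J', g a = 0)
    (hJ2 : ∀ a ∈ J2, g a = 0) (j : spR K B ⟶ A) [IsOpenImmersion j.left] (ε : B →ₐ[K] K)
    (hε : (1 : spR K K ⟶ A) = spMap ε ≫ j) (φ ψ : B →ₐ[K] O)
    (hφ : ∀ b, φ b - algebraMap K O (ε b) ∈ J) (hψ : ∀ b, ψ b - algebraMap K O (ε b) ∈ J') :
    ∃ θ : B →ₐ[K] O, (spMap φ ≫ j) * (spMap ψ ≫ j) = spMap θ ≫ j ∧
      ∀ b, θ b - (φ b + ψ b - algebraMap K O (ε b)) ∈ J2 := by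
  let c : B →ₐ[K] O := vdZero ε O
  have hc : ∀ b, c b = algebraMap K O (ε b) := fun b => rfl
  have hone : (1 : spR K O ⟶ A) = spMap c ≫ j := vdZero_spec j ε hε O
  let T := gdT (K := K) J J' J2 hJJ
  let t1 : B →ₐ[K] T := (c.prod (φ.prod (c.prod φ))).codRestrict T fun b => by
    refine ⟨?_, ?_, ?_⟩
    · show φ b - c b ∈ J
      exact hφ b
    · show c b - c b ∈ J'
      rw [sub_self]
      exact J'.zero_mem
    · show φ b - (φ b + c b - c b) ∈ J2
      rw [add_sub_cancel_right, sub_self]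
      exact J2.zero_mem
  let t2 : B →ₐ[K] T := (c.prod (c.prod (ψ.prod ψ))).codRestrict T fun b => by
    refine ⟨?_, ?_, ?_⟩
    · show c b - c b ∈ J
      rw [sub_self]
      exact J.zero_mem
    · show ψ b - c b ∈ J'
      exact hψ b
    · show ψ b - (c b + ψ b - c b) ∈ J2
      rw [add_sub_cancel_left, sub_self]
      exact J2.zero_mem
  let π0 : T →ₐ[K] O := (AlgHom.fst K O (O × O × O)).comp T.val
  let π1 : T →ₐ[K] O := ((AlgHom.fst K O (O × O)).comp (AlgHom.snd K O (O × O × O))).comp T.val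
  let π2 : T →ₐ[K] O := ((AlgHom.fst K O O).comp
    ((AlgHom.snd K O (O × O)).comp (AlgHom.snd K O (O × O × O)))).comp T.val
  let π3 : T →ₐ[K] O := ((AlgHom.snd K O O).comp
    ((AlgHom.snd K O (O × O)).comp (AlgHom.snd K O (O × O × O)))).comp T.val
  let P : spR K T ⟶ A := (spMap t1 ≫ j) * (spMap t2 ≫ j)
  have hP : ∀ π : T →ₐ[K] O, spMap π ≫ P = (spMap (π.comp t1) ≫ j) * (spMap (π.comp t2) ≫ j) := by
    intro π
    show spMap π ≫ ((spMap t1 ≫ j) * (spMap t2 ≫ j)) = _
    rw [MonObj.comp_mul, ← Category.assoc, ← spMap_comp, ← Category.assoc, ← spMap_comp]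
  have hP0 : spMap π0 ≫ P = spMap c ≫ j := by
    have e1 : π0.comp t1 = c := rfl
    have e2 : π0.comp t2 = c := rfl
    rw [hP, e1, e2, ← hone, mul_one]
  have hP1 : spMap π1 ≫ P = spMap φ ≫ j := by
    have e1 : π1.comp t1 = φ := rfl
    have e2 : π1.comp t2 = c := rfl
    rw [hP, e1, e2, ← hone, mul_one]
  have hP2 : spMap π2 ≫ P = spMap ψ ≫ j := by
    have e1 : π2.comp t1 = c := rfl
    have e2 : π2.comp t2 = ψ := rfl
    rw [hP, e1, e2, ← hone, one_mul]
  have hP3 : spMap π3 ≫ P = (spMap φ ≫ j) * (spMap ψ ≫ j) := by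
    have e1 : π3.comp t1 = φ := rfl
    have e2 : π3.comp t2 = ψ := rfl
    rw [hP, e1, e2]
  obtain ⟨χ, hχ⟩ := vd_point j (g.comp π0)
    (fun p hp => gdT_unit g J J' J2 hJJ hu hJ hJ' hJ2 p hp)
    P (g.comp c) (by rw [spMap_comp, Category.assoc, hP0, ← Category.assoc, ← spMap_comp])
  have h0 : π0.comp χ = c := by
    apply vd_chart_mono j
    rw [spMap_comp, Category.assoc, ← hχ, hP0]
  have h1 : π1.comp χ = φ := by
    apply vd_chart_mono j
    rw [spMap_comp, Category.assoc, ← hχ, hP1]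
  have h2 : π2.comp χ = ψ := by
    apply vd_chart_mono j
    rw [spMap_comp, Category.assoc, ← hχ, hP2]
  refine ⟨π3.comp χ, ?_, fun b => ?_⟩
  · rw [spMap_comp, Category.assoc, ← hχ, hP3]
  · obtain ⟨-, -, h3⟩ := (χ b).2
    have e0 : (χ b).1.1 = c b := congrArg (fun m : B →ₐ[K] O => m b) h0
    have e1 : (χ b).1.2.1 = φ b := congrArg (fun m : B →ₐ[K] O => m b) h1
    have e2 : (χ b).1.2.2.1 = ψ b := congrArg (fun m : B →ₐ[K] O => m b) h2
    rw [e0, e1, e2] at h3
    exact h3

end sum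

end Pool.Agent.H.MP_ac3185_nt
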