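import Pool.Agent.H.MP_ac3185_nt.W.Sum
import Pool.Agent.H.MP_ac3185_nt.V.DivH

/-! The torsion of an abelian variety over a locally compact field is finite. -/

set_option autoImplicit false

open CategoryTheory AlgebraicGeometry NumberField Filter
open scoped MonObj

namespace Pool.Agent.H.MP_ac3185_nt

universe u

section isolated

variable {K : Type u} [Field K] {A : Over (Spec (.of K))} [GrpObj A] {B E : Type u} [CommRing B]
  [Algebra K B] [Field E] [Algebra K E] {v : AbsoluteValue E ℝ} (D : VdRing K E v)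
  (j : spR K B ⟶ A) [IsOpenImmersion j.left] (ε : B →ₐ[K] K)
  (hε : (1 : spR K K ⟶ A) = spMap ε ≫ j) (G : Finset B) (hG : Algebra.adjoin K (G : Set B) = ⊤)
  (hG0 : ∀ g ∈ G, ε g = 0)

include D hε hG hG0 in
/-- Torsion points are isolated. -/
theorem vt_isolated (m : ℕ) (hm : (m : E) ≠ 0) : ∃ δ0 > 0, ∀ z : spR K E ⟶ A,
    Near v j G δ0 z → z ^ m = 1 → z = 1 := by
  classical
  by_contra hcon
  push Not at hcon
  have hpos : ∀ n : ℕ, (0 : ℝ) < 1 / ((n : ℝ) + 1) := fun n => by positivity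
  choose z hz hzm hz1 using fun n : ℕ => hcon (1 / ((n : ℝ) + 1)) (hpos n)
  choose φ hφ1 hφ2 using hz
  have hne : ∀ n, ∃ g ∈ G, φ n g ≠ 0 := by
    intro n
    by_contra h
    push Not at h
    apply hz1 n
    rw [hφ1 n, vdZero_unique ε G hG hG0 (φ n) h, ← vdZero_spec j ε hε]
  have hmax : ∀ n, ∃ g ∈ G, ∀ g' ∈ G, v (φ n g') ≤ v (φ n g) := by
    intro n
    obtain ⟨g, hg, -⟩ := hne n
    exact Finset.exists_max_image G (fun g => v (φ n g)) ⟨g, hg⟩
  choose γ' hγ1 hγ2 using hmax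
  let δ : ℕ → ℝ := fun n => v (φ n (γ' n))
  have hδ0 : ∀ n, 0 < δ n := by
    intro n
    obtain ⟨g, hg, h1⟩ := hne n
    exact (v.pos h1).trans_le (hγ2 n g hg)
  have hδ1 : ∀ n, δ n ≤ 1 / ((n : ℝ) + 1) := fun n => hφ2 n _ (hγ1 n)
  have hlim : ∀ et > 0, ∀ᶠ n in (vdU : Filter ℕ), δ n < et := by
    intro et het
    obtain ⟨N, hN⟩ := exists_nat_one_div_lt het
    have h1 : ∀ᶠ n in (vdU : Filter ℕ), N ≤ n :=
      Nat.hyperfilter_le_atTop (eventually_ge_atTop N)
    filter_upwards [h1] with n hn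
    refine (hδ1 n).trans_lt (lt_of_le_of_lt ?_ hN)
    exact one_div_le_one_div_of_le (by positivity) (by exact_mod_cast Nat.succ_le_succ hn)
  have hlim1 : ∀ et > 0, ∀ᶠ n in (vdU : Filter ℕ), |δ n| < et := fun et het =>
    (hlim et het).mono fun n hn => by rwa [abs_of_pos (hδ0 n)]
  have hlim2 : ∀ et > 0, ∀ᶠ n in (vdU : Filter ℕ), |δ n * δ n| < et := by
    intro et het
    filter_upwards [hlim et het, hlim 1 one_pos] with n h1 h2
    rw [abs_of_pos (mul_pos (hδ0 n) (hδ0 n))]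
    nlinarith [hδ0 n]
  let Φ : B →ₐ[K] (ℕ → E) := Pi.algHom K (fun _ => E) φ
  have hΦ : ∀ g ∈ G, VdLim v (Φ g) 0 := by
    intro g hg et het
    filter_upwards [hlim et het] with n hn
    rw [sub_zero]
    exact (hγ2 n g hg).trans_lt hn
  obtain ⟨φ', h1, h2⟩ := vd_bounded D ε G hG hG0 Φ hΦ
  let J := vdJ D δ
  let J2 := vdJ D (fun n => δ n * δ n)
  have hJJ : ∀ a ∈ J, ∀ b ∈ J, a * b ∈ J2 := fun a ha b hb => vdJ_mul D ha hb
  have hJ2J : ∀ a ∈ J2, a ∈ J := by
    rintro a ⟨f, C, h3, h4⟩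
    refine ⟨f, |C|, h3, ?_⟩
    filter_upwards [h4, hlim 1 one_pos] with n e1 e2
    refine e1.trans ?_
    have e3 : C * (δ n * δ n) ≤ |C| * (δ n * δ n) :=
      mul_le_mul_of_nonneg_right (le_abs_self C) (mul_pos (hδ0 n) (hδ0 n)).le
    refine e3.trans (mul_le_mul_of_nonneg_left ?_ (abs_nonneg C))
    nlinarith [hδ0 n]
  have hφJ : ∀ b, φ' b - algebraMap K D.O (ε b) ∈ J := by
    have e1 : (Ideal.Quotient.mkₐ K J).comp φ' = vdZero ε (D.O ⧸ J) := by
      apply vdZero_unique ε G hG hG0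
      intro g hg
      show Ideal.Quotient.mk J (φ' g) = 0
      rw [Ideal.Quotient.eq_zero_iff_mem]
      refine ⟨Φ g, 1, (congrArg (fun m : B →ₐ[K] D.F => m g) h1).symm,
        Eventually.of_forall fun n => ?_⟩
      rw [one_mul]
      exact hγ2 n g hg
    intro b
    rw [← Ideal.Quotient.eq_zero_iff_mem, map_sub, sub_eq_zero]
    exact congrArg (fun m : B →ₐ[K] (D.O ⧸ J) => m b) e1
  -- the multiples
  have key : ∀ k : ℕ, ∃ ψ : B →ₐ[K] D.O, (spMap φ' ≫ j) ^ k = spMap ψ ≫ j ∧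
      ∀ b, ψ b - ((k : D.O) * (φ' b - algebraMap K D.O (ε b)) + algebraMap K D.O (ε b)) ∈ J2 := by
    intro k
    induction k with
    | zero =>
      refine ⟨vdZero ε D.O, ?_, fun b => ?_⟩
      · rw [pow_zero, vdZero_spec j ε hε]
      · have e1 : vdZero ε D.O b = algebraMap K D.O (ε b) := rfl
        rw [e1, Nat.cast_zero, zero_mul, zero_add, sub_self]
        exact J2.zero_mem
    | succ k ih =>
      obtain ⟨ψ, h3, h4⟩ := ih
      have h5 : ∀ b, ψ b - algebraMap K D.O (ε b) ∈ J := by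
        intro b
        have e1 : ψ b - algebraMap K D.O (ε b) =
            (ψ b - ((k : D.O) * (φ' b - algebraMap K D.O (ε b)) + algebraMap K D.O (ε b))) +
              (k : D.O) * (φ' b - algebraMap K D.O (ε b)) := by ring
        rw [e1]
        exact J.add_mem (hJ2J _ (h4 b)) (J.mul_mem_left _ (hφJ b))
      obtain ⟨θ, h6, h7⟩ := gd_sum D.st J J J2 hJJ D.isUnit (fun a ha => vdJ_st D hlim1 ha)
        (fun a ha => vdJ_st D hlim1 ha) (fun a ha => vdJ_st D hlim2 ha) j ε hε ψ φ' h5 hφJ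
      refine ⟨θ, by rw [pow_succ, h3, h6], fun b => ?_⟩
      have e1 : θ b - (((k + 1 : ℕ) : D.O) * (φ' b - algebraMap K D.O (ε b)) +
          algebraMap K D.O (ε b)) =
          (θ b - (ψ b + φ' b - algebraMap K D.O (ε b))) +
            (ψ b - ((k : D.O) * (φ' b - algebraMap K D.O (ε b)) + algebraMap K D.O (ε b))) := by
        push_cast
        ring
      rw [e1]
      exact J2.add_mem (h7 b) (h4 b)
  obtain ⟨ψ, h3, h4⟩ := key m
  have h5 : spMap D.gm ≫ ((spMap Φ ≫ j) ^ m) =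
      spMap ((IsScalarTower.toAlgHom K D.O D.F).comp ψ) ≫ j := by
    rw [spMap_comp, Category.assoc, ← h3, MonObj.comp_pow, MonObj.comp_pow, ← Category.assoc,
      ← spMap_comp, ← Category.assoc, ← spMap_comp, h1]
  have hev : ∀ n, spMap (vdEv K E n) ≫ ((spMap Φ ≫ j) ^ m) = 1 := by
    intro n
    rw [MonObj.comp_pow, ← Category.assoc, ← spMap_comp]
    have e1 : (vdEv K E n).comp Φ = φ n := rfl
    rw [e1, ← hφ1, hzm]
  have h6 : ∀ g ∈ G, ∃ C : ℝ, ∀ᶠ n in (vdU : Filter ℕ), v (m : E) * v (φ n g) ≤ C * (δ n * δ n) := by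
    intro g hg
    obtain ⟨f, hf⟩ := D.rep (ψ g)
    have h8 := vd_germ j vdU D.gm D.gm_zero _ _ h5 g f hf
    have h9 : D.gm f = 0 := by
      rw [D.gm_zero]
      filter_upwards [h8] with n e1
      obtain ⟨χ, hχ1, hχ2⟩ := e1
      have e2 : χ = vdZero ε E := by
        apply vd_chart_mono j
        rw [← hχ1, hev, vdZero_spec j ε hε]
      rw [← hχ2, e2]
      show algebraMap K E (ε g) = 0
      rw [hG0 g hg, map_zero]
    have h10 : ψ g = 0 := by
      apply D.inj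
      rw [← hf, h9, map_zero]
    have h11 := h4 g
    rw [h10, hG0 g hg, map_zero, sub_zero, add_zero, zero_sub, Ideal.neg_mem_iff] at h11
    obtain ⟨f', C, h12, h13⟩ := h11
    refine ⟨C, ?_⟩
    have h14 : D.gm ((m : ℕ → E) * Φ g - f') = 0 := by
      have e1 : D.gm (Φ g) = algebraMap D.O D.F (φ' g) :=
        (congrArg (fun m : B →ₐ[K] D.F => m g) h1).symm
      rw [map_sub, map_mul, map_natCast, e1, h12, map_mul, map_natCast, sub_self]
    rw [D.gm_zero] at h14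
    filter_upwards [h13, h14] with n e1 e2
    have e3 : (m : E) * φ n g = f' n := sub_eq_zero.1 e2
    rw [← map_mul, e3]
    exact e1
  choose! C hC using h6
  have h7 : ∀ᶠ n in (vdU : Filter ℕ), ∀ g ∈ G, v (m : E) * v (φ n g) ≤ C g * (δ n * δ n) :=
    (eventually_all_finset G).2 hC
  have hvm : 0 < v (m : E) := v.pos hm
  have h8 : 0 < v (m : E) / (∑ g ∈ G, |C g| + 1) := by
    have : 0 ≤ ∑ g ∈ G, |C g| := Finset.sum_nonneg fun g _ => abs_nonneg _
    positivity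
  obtain ⟨n, e1, e2⟩ := (h7.and (hlim _ h8)).exists
  have e3 := e1 _ (hγ1 n)
  have e4 : C (γ' n) ≤ ∑ g ∈ G, |C g| + 1 := by
    have : |C (γ' n)| ≤ ∑ g ∈ G, |C g| :=
      Finset.single_le_sum (fun g _ => abs_nonneg (C g)) (hγ1 n)
    have := le_abs_self (C (γ' n))
    linarith
  have hS : 0 < ∑ g ∈ G, |C g| + 1 := by
    have : 0 ≤ ∑ g ∈ G, |C g| := Finset.sum_nonneg fun g _ => abs_nonneg _
    linarith
  have e5 : v (m : E) * δ n ≤ (∑ g ∈ G, |C g| + 1) * (δ n * δ n) :=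
    e3.trans (mul_le_mul_of_nonneg_right e4 (mul_pos (hδ0 n) (hδ0 n)).le)
  have e6 : (∑ g ∈ G, |C g| + 1) * δ n < v (m : E) := by
    rw [lt_div_iff₀ hS] at e2
    linarith
  nlinarith [hδ0 n, mul_lt_mul_of_pos_right e6 (hδ0 n)]

end isolated

/-- The `m`-torsion is finite. -/
theorem vt_finite {K : Type u} [Field K] {E : Type u} [Field E] [Algebra K E]
    (A : Over (Spec (.of K))) [GrpObj A] [IsAbVar A] (v : AbsoluteValue E ℝ)
    (hc : ∀ (f : ℕ → E) (C : ℝ), (∀ n, v (f n) ≤ C) → ∃ l, VdLim v f l) (m : ℕ)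
    (hm : (m : E) ≠ 0) : {x : spR K E ⟶ A | x ^ m = 1}.Finite := by
  by_contra hinf
  have hinf' : Set.Infinite _ := hinf
  obtain ⟨D⟩ := exists_vdRing K E v hc
  obtain ⟨B, _, _, j, hj, ε, G, hε, hG, hG0⟩ := vd_origin A
  obtain ⟨δ0, hδ0, hiso⟩ := vt_isolated D j ε hε G hG hG0 m hm
  let e := hinf'.natEmbedding
  let y : ℕ → (spR K E ⟶ A) := fun n => (e n).1
  have hy : ∀ n, y n ^ m = 1 := fun n => (e n).2
  obtain ⟨l, hl⟩ := exists_small_div D y
  have h1 : (1 : spR K E ⟶ A) / l ^ m = 1 := by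
    have h2 := hl.pow m
    have h3 : (fun n => (y n / l) ^ m) = fun _ : ℕ => (1 : spR K E ⟶ A) / l ^ m := by
      funext n
      rw [div_pow, hy]
    rw [h3] at h2
    refine Near.eq_one j ε hε G hG hG0 (v := v) fun δ hδ => ?_
    obtain ⟨n, hn⟩ := (h2.near j ε hε G hG0 δ hδ).exists
    exact hn
  have hlm : l ^ m = 1 := by
    rw [div_eq_one] at h1
    exact h1.symm
  have h2 : ∀ᶠ n in (vdU : Filter ℕ), y n = l := by
    filter_upwards [hl.near j ε hε G hG0 δ0 hδ0] with n hn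
    have h3 := hiso _ hn (by rw [div_pow, hy, hlm, div_one])
    rwa [div_eq_one] at h3
  obtain ⟨n0, hn0⟩ := h2.exists
  have h3 : ∀ᶠ n in (vdU : Filter ℕ), n0 < n :=
    Nat.hyperfilter_le_atTop (eventually_gt_atTop n0)
  obtain ⟨n1, hn1, hn2⟩ := (h2.and h3).exists
  have h4 : e n0 = e n1 := Subtype.ext (hn0.trans hn1.symm)
  exact absurd (e.injective h4) hn2.ne

end Pool.Agent.H.MP_ac3185_nt
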